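import Mathlib

/-! # MP_a2e83c_al: a universal affine isometric action of a locally finite group

Definitions: the category of finite groups `D` together with the spaces `ℝ^D`. -/

set_option autoImplicit false

namespace R658.UA

open Topology CategoryTheory

/-- left translation of functions -/
def tr {D : Type} [Group D] (d : D) (v : D → ℝ) : D → ℝ := fun x => v (d⁻¹ * x)

section
variable {D : Type} [Group D]

theorem tr_apply (d : D) (v : D → ℝ) (x : D) : tr d v x = v (d⁻¹ * x) := rfl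

theorem tr_one (v : D → ℝ) : tr 1 v = v := by
  ext x; simp [tr]

theorem tr_mul (a b : D) (v : D → ℝ) : tr (a * b) v = tr a (tr b v) := by
  ext x; simp [tr, mul_assoc]

theorem tr_inv_tr (a : D) (v : D → ℝ) : tr a⁻¹ (tr a v) = v := by
  rw [← tr_mul, inv_mul_cancel, tr_one]

theorem tr_tr_inv (a : D) (v : D → ℝ) : tr a (tr a⁻¹ v) = v := by
  rw [← tr_mul, mul_inv_cancel, tr_one]

theorem tr_add (a : D) (v w : D → ℝ) : tr a (v + w) = tr a v + tr a w := rfl

theorem tr_sub (a : D) (v w : D → ℝ) : tr a (v - w) = tr a v - tr a w := rfl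

theorem tr_smul (a : D) (r : ℝ) (v : D → ℝ) : tr a (r • v) = r • tr a v := rfl

theorem norm_tr [Fintype D] (a : D) (v : D → ℝ) : ‖tr a v‖ = ‖v‖ := by
  apply le_antisymm
  · refine (pi_norm_le_iff_of_nonneg (norm_nonneg v)).2 fun x => norm_le_pi_norm v _
  · refine (pi_norm_le_iff_of_nonneg (norm_nonneg _)).2 fun x => ?_
    have := norm_le_pi_norm (tr a v) (a * x)
    simpa [tr] using this

end

/-- translation as a linear map -/
def trL {D : Type} [Group D] (d : D) : (D → ℝ) →ₗ[ℝ] (D → ℝ) where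
  toFun := tr d
  map_add' := tr_add d
  map_smul' := tr_smul d

/-- bundled finite groups -/
structure FG where
  /-- the carrier -/
  T : Type
  [grp : Group T]
  [fin : Fintype T]

attribute [instance] FG.grp FG.fin

/-- morphisms `D → E`: an injective homomorphism together with an equivariant affine isometric
embedding `ℝ^D → ℝ^E` (extending functions from `D` to `E`) -/
@[ext]
structure Mor (X Y : FG) where
  /-- the homomorphism -/
  i : X.T →* Y.T
  /-- the affine map -/
  e : (X.T → ℝ) →ᵃ[ℝ] (Y.T → ℝ)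
  inj : Function.Injective i
  lip : ∀ v, ‖e.linear v‖ ≤ ‖v‖
  res : ∀ v d, e v (i d) = v d
  equi : ∀ d v, e (tr d v) = tr (i d) (e v)

instance : Category FG where
  Hom := Mor
  id X :=
    { i := MonoidHom.id _
      e := AffineMap.id ℝ _
      inj := fun _ _ h => h
      lip := fun _ => le_rfl
      res := fun _ _ => rfl
      equi := fun _ _ => rfl }
  comp f g :=
    { i := g.i.comp f.i
      e := g.e.comp f.e
      inj := g.inj.comp f.inj
      lip := fun v => (g.lip _).trans (f.lip v)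
      res := fun v d => by
        show g.e (f.e v) (g.i (f.i d)) = v d
        rw [g.res, f.res]
      equi := fun d v => by
        show g.e (f.e (tr d v)) = tr (g.i (f.i d)) (g.e (f.e v))
        rw [f.equi, g.equi] }

theorem id_i (X : FG) (d : X.T) : Mor.i (𝟙 X) d = d := rfl

theorem id_e (X : FG) (v : X.T → ℝ) : Mor.e (𝟙 X) v = v := rfl

theorem comp_i {X Y Z : FG} (f : X ⟶ Y) (g : Y ⟶ Z) (d : X.T) :
    Mor.i (f ≫ g) d = Mor.i g (Mor.i f d) := rfl

theorem comp_e {X Y Z : FG} (f : X ⟶ Y) (g : Y ⟶ Z) (v : X.T → ℝ) :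
    Mor.e (f ≫ g) v = Mor.e g (Mor.e f v) := rfl

theorem Mor.dist_le {X Y : FG} (f : X ⟶ Y) (v w : X.T → ℝ) :
    ‖Mor.e f v - Mor.e f w‖ ≤ ‖v - w‖ := by
  have := Mor.lip f (v - w)
  rwa [show (Mor.e f).linear (v - w) = Mor.e f v - Mor.e f w from
    AffineMap.linearMap_vsub (Mor.e f) v w] at this

theorem Mor.dist_eq {X Y : FG} (f : X ⟶ Y) (v w : X.T → ℝ) :
    ‖Mor.e f v - Mor.e f w‖ = ‖v - w‖ := by
  apply le_antisymm (Mor.dist_le f v w)
  refine (pi_norm_le_iff_of_nonneg (norm_nonneg _)).2 fun d => ?_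
  have := norm_le_pi_norm (Mor.e f v - Mor.e f w) (Mor.i f d)
  simpa [Mor.res] using this

/-- closeness of morphisms -/
def Near {X Y : FG} (ε : ℝ) (f g : X ⟶ Y) : Prop :=
  Mor.i f = Mor.i g ∧ ∀ v, ‖Mor.e f v - Mor.e g v‖ ≤ ε * (1 + ‖v‖)

/-- composites in a sequence of morphisms -/
def ch {K : Type 1} [Category.{0} K] {D : ℕ → K} (s : ∀ n, D n ⟶ D (n + 1)) {n m : ℕ}
    (h : n ≤ m) : D n ⟶ D m :=
  Nat.leRec (motive := fun m _ => D n ⟶ D m) (𝟙 _) (fun m _ f => f ≫ s m) h

section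
variable {K : Type 1} [Category.{0} K] {D : ℕ → K} (s : ∀ n, D n ⟶ D (n + 1))

theorem ch_self (n : ℕ) : ch s (le_refl n) = 𝟙 (D n) :=
  Nat.leRec_self (motive := fun m _ => D n ⟶ D m) _ _

theorem ch_succ {n m : ℕ} (h : n ≤ m) : ch s (h.trans (Nat.le_succ m)) = ch s h ≫ s m :=
  Nat.leRec_succ (motive := fun m _ => D n ⟶ D m) _ _ h

theorem ch_comp {n m k : ℕ} (h : n ≤ m) (h' : m ≤ k) : ch s (h.trans h') = ch s h ≫ ch s h' := by
  induction k, h' using Nat.le_induction with
  | base => rw [ch_self, Category.comp_id]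
  | succ k hk ih =>
    rw [ch_succ s hk, ← Category.assoc, ← ih, ← ch_succ]

theorem ch_one (n : ℕ) : ch s (Nat.le_succ n) = s n := by
  have := ch_succ s (le_refl n)
  rwa [ch_self, Category.id_comp] at this

end

/-- the generic property of a sequence of finite groups -/
def Fr {D : ℕ → FG} (s : ∀ n, D n ⟶ D (n + 1)) : Prop :=
  ∀ (n : ℕ) (Y : FG) (ν : D n ⟶ Y) (ε : ℝ), 0 < ε →
    ∃ (m : ℕ) (h : n ≤ m) (κ : Y ⟶ D m), Near ε (ch s h) (ν ≫ κ)

end R658.UA
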