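import Pool.Agent.R658.UA.NA

/-! # MP_a2e83c_al: the universal action -/

set_option autoImplicit false

namespace R658.UA

open Topology CategoryTheory TopologicalSpace Filter

theorem near_mono {X Y : FG} (f g : X ⟶ Y) (ε ε' : ℝ) (h : ε ≤ ε') (hn : Near ε f g) :
    Near ε' f g :=
  ⟨hn.1, fun v => (hn.2 v).trans (mul_le_mul_of_nonneg_right h (by positivity))⟩

theorem fr_exists (hNA : TaskNA) (hNO : TaskNAOBJ) (hCH : TaskCHAIN) (hDE : TaskDENSE) :
    ∃ (D : ℕ → FG) (s : ∀ n, D n ⟶ D (n + 1)), Fr s := by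
  choose R hR using hDE
  obtain ⟨D, s, _, hs⟩ := hCH FG (fun {X Y} ε f g => Near ε f g) { T := Unit } R
    (fun f g ε ε' h hn => near_mono f g ε ε' h hn)
    (fun {X Y Z} f g ε hε => hNO hNA X Y Z f g ε hε)
  refine ⟨D, s, fun n Y ν ε hε => ?_⟩
  obtain ⟨j, κ, hκ⟩ := hR (D n) Y ν (ε / 2) (half_pos hε)
  obtain ⟨m, h, g', hg⟩ := hs n j (ε / 2) (half_pos hε)
  refine ⟨m, h, κ ≫ g', ?_, fun v => ?_⟩
  · have h1 : Mor.i (ch s h) = Mor.i ((R (D n) j).2 ≫ g') := hg.1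
    have h2 : Mor.i (R (D n) j).2 = Mor.i (ν ≫ κ) := hκ.1
    rw [h1]
    ext d
    show Mor.i g' (Mor.i (R (D n) j).2 d) = Mor.i g' (Mor.i κ (Mor.i ν d))
    rw [h2]
    rfl
  · have h1 := hg.2 v
    have h2 := hκ.2 v
    have h3 : ‖Mor.e ((R (D n) j).2 ≫ g') v - Mor.e (ν ≫ κ ≫ g') v‖ ≤ ε / 2 * (1 + ‖v‖) := by
      refine le_trans ?_ h2
      show ‖Mor.e g' (Mor.e (R (D n) j).2 v) - Mor.e g' (Mor.e κ (Mor.e ν v))‖ ≤ _
      exact Mor.dist_le g' _ _
    calc ‖Mor.e (ch s h) v - Mor.e (ν ≫ κ ≫ g') v‖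
        ≤ ‖Mor.e (ch s h) v - Mor.e ((R (D n) j).2 ≫ g') v‖ +
          ‖Mor.e ((R (D n) j).2 ≫ g') v - Mor.e (ν ≫ κ ≫ g') v‖ := norm_sub_le_norm_sub_add_norm_sub _ _ _
      _ ≤ ε / 2 * (1 + ‖v‖) + ε / 2 * (1 + ‖v‖) := add_le_add h1 h3
      _ = ε * (1 + ‖v‖) := by ring

theorem universal (hNA : TaskNA) (hNO : TaskNAOBJ) (hCH : TaskCHAIN) (hDE : TaskDENSE)
    (hLG : TaskLIMG) (hLX : TaskLIMX) (hSU : TaskSTEPU) (hEX : TaskEXH) (hRE : TaskREC)
    (hLI : TaskLIMIT) :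
    ∃ (G : Type) (_ : Group G) (X : Type) (_ : NormedAddCommGroup X) (_ : NormedSpace ℝ X)
      (act : G →* (X ≃ᵢ X)), Countable G ∧
      (∀ S : Set G, S.Finite → Finite (Subgroup.closure S)) ∧ CompleteSpace X ∧
      SeparableSpace X ∧
      ∀ (H : Type) [Group H] [Countable H],
        (∀ S : Set H, S.Finite → Finite (Subgroup.closure S)) →
        ∀ (Y : Type) [NormedAddCommGroup Y] [NormedSpace ℝ Y] [SeparableSpace Y]
          (actY : H →* (Y ≃ᵢ Y)),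
        ∃ (ι : H →* G) (φ : Y →ᵃⁱ[ℝ] X), Function.Injective ι ∧
          ∀ h y, φ (actY h y) = act (ι h) (φ y) := by
  classical
  obtain ⟨D, s, hFr⟩ := fr_exists hNA hNO hCH hDE
  obtain ⟨G, _, j, hj1, hj2, hj3⟩ := hLG D s
  obtain ⟨X, _, _, _, _, act, Φ, hΦ1, hΦ2, hΦ3⟩ := hLX D s G j hj1 hj2 hj3
  have hstep := hSU hNA D s hFr
  -- compatibility along the chain
  have hjch : ∀ (n m : ℕ) (h : n ≤ m) (d : (D n).T), j m (Mor.i (ch s h) d) = j n d := by
    intro n m h d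
    induction m, h using Nat.le_induction with
    | base => rw [ch_self]; rfl
    | succ k hk ih =>
      rw [ch_succ s hk]
      show j (k + 1) (Mor.i (s k) (Mor.i (ch s hk) d)) = _
      rw [hj2, ih]
  have hΦch : ∀ (n m : ℕ) (h : n ≤ m) (v : (D n).T → ℝ), Φ m (Mor.e (ch s h) v) = Φ n v := by
    intro n m h v
    induction m, h using Nat.le_induction with
    | base => rw [ch_self]; rfl
    | succ k hk ih =>
      rw [ch_succ s hk]
      show Φ (k + 1) (Mor.e (s k) (Mor.e (ch s hk) v)) = _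
      rw [hΦ2, ih]
  have hΦlin : ∀ n v, ‖(Φ n).linear v‖ = ‖v‖ := by
    intro n v
    have h1 := lin_sub' (Φ n) v 0
    rw [sub_zero] at h1
    rw [h1, hΦ1, sub_zero]
  refine ⟨G, inferInstance, X, inferInstance, inferInstance, act, ?_, ?_, inferInstance,
    inferInstance, ?_⟩
  · have hsur : Function.Surjective (fun x : Σ n, (D n).T => j x.1 x.2) := fun g => by
      obtain ⟨n, d, h⟩ := hj3 g
      exact ⟨⟨n, d⟩, h⟩
    exact hsur.countable
  · intro S hS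
    have hmem : ∀ g : G, ∃ n, ∀ m, n ≤ m → g ∈ (j m).range := by
      intro g
      obtain ⟨n, d, h⟩ := hj3 g
      exact ⟨n, fun m hm => ⟨Mor.i (ch s hm) d, by rw [hjch, h]⟩⟩
    choose f hf using hmem
    obtain ⟨N, hN⟩ : ∃ N, ∀ g ∈ S, f g ≤ N := by
      obtain ⟨N, hN⟩ := (hS.image f).bddAbove
      exact ⟨N, fun g hg => hN ⟨g, hg, rfl⟩⟩
    have hle : Subgroup.closure S ≤ (j N).range :=
      (Subgroup.closure_le _).2 fun g hg => hf g N (hN g hg)
    have hfin : Finite (j N).range := by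
      have : Finite (Set.range (j N)) := Set.finite_range _
      exact this
    exact Finite.of_injective _ (Subgroup.inclusion_injective hle)
  · intro H _ _ hlf Y _ _ _ actY
    let actY' : H →* (Y ≃ᵃⁱ[ℝ] Y) :=
      { toFun := fun h => (actY h).toRealAffineIsometryEquiv
        map_one' := by
          ext y
          simp
        map_mul' := fun a b => by
          ext y
          simp }
    have hact : ∀ h y, actY' h y = actY h y := fun h y => rfl
    obtain ⟨Hs, Fs, hH1, hH2, hH3, hH0, hF1, hF2, hF3, hF0, hF4, hF5, hF6⟩ := hEX H Y actY' hlf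
    obtain ⟨N, ι, φ, δ, hδ, hemb, hcomp⟩ := hRE D s hstep H Y actY' Hs Fs hH2 hH1 hH0 hF1 hF2 hF3 hF0
      hF4 hF5
    obtain ⟨ι', φ', h1, h2⟩ := hLI H Y G X actY' act Hs Fs hH2 hH3 hF2 hF6
      (fun k => (j (N k)).comp (ι k)) (fun k => (Φ (N k)).comp (φ k)) δ hδ
      (fun k => (hj1 (N k)).comp (hemb k).1)
      (fun k y => by
        show ‖(Φ (N k)).linear ((φ k).linear y)‖ ≤ ‖y‖
        rw [hΦlin]
        exact (hemb k).2.1 y)
      (fun k h y => by
        show Φ (N k) (φ k (actY' h y)) = act (j (N k) (ι k h)) (Φ (N k) (φ k y))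
        rw [(hemb k).2.2.1 h y, hΦ3])
      (fun k y hy => by
        show (1 - δ k) * ‖y‖ ≤ ‖(Φ (N k)).linear ((φ k).linear y)‖
        rw [hΦlin]
        exact (hemb k).2.2.2 y hy)
      (fun k x => by
        obtain ⟨h, hc1, hc2⟩ := hcomp k
        show j (N (k + 1)) (ι (k + 1) ⟨x, hH2 k x.2⟩) = j (N k) (ι k x)
        rw [hc1 x, hjch])
      (fun k y hy => by
        obtain ⟨h, hc1, hc2⟩ := hcomp k
        show ‖Φ (N (k + 1)) (φ (k + 1) y) - Φ (N k) (φ k y)‖ ≤ _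
        rw [← hΦch (N k) (N (k + 1)) h, hΦ1]
        exact hc2 y hy)
    exact ⟨ι', φ', h1, fun h y => h2 h y⟩

end R658.UA
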