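import Pool.Agent.R658.UA.Stmts

/-! # MP_a2e83c_al: near amalgamation -/

set_option autoImplicit false

namespace R658.UA

open Topology CategoryTheory TopologicalSpace Filter

section
variable {A B C : Type} [Group A] [Group B] [Fintype B] [Group C] [Fintype C] {W : Type}
    [NormedAddCommGroup W] [NormedSpace ℝ W]

/-- partial systems with a root and bounds on the frontier -/
def HS (iB : A →* B) (iC : A →* C)
    (α : W →ᵃ[ℝ] (B → ℝ)) (β : W →ᵃ[ℝ] (C → ℝ)) (F : Set W) (ε : ℝ) (w₀ : W) (L M : ℝ) : Prop :=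
  ∃ (s : Sys iB iC α β F ε) (x₀ : s.S), (∀ v, s.p x₀ v = v 1) ∧ (∀ v, s.q x₀ v = v 1) ∧
    ∀ x ∉ s.S, (∀ v, |(s.p x).linear v| ≤ L * ‖v‖) ∧ |s.p x (α w₀)| ≤ M

theorem lin_sub {V : Type} [AddCommGroup V] [Module ℝ V] (f : V →ᵃ[ℝ] ℝ) (v w : V) :
    f.linear (v - w) = f v - f w := AffineMap.linearMap_vsub f v w

theorem lin_sub' {V V' : Type} [AddCommGroup V] [Module ℝ V] [AddCommGroup V'] [Module ℝ V']
    (f : V →ᵃ[ℝ] V') (v w : V) :
    f.linear (v - w) = f v - f w := AffineMap.linearMap_vsub f v w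

/-- the linear part of a translated functional -/
theorem lin_of_tr (f g : (C → ℝ) →ᵃ[ℝ] ℝ) (c : C) (h : ∀ v, f v = g (tr c v)) (v : C → ℝ) :
    f.linear v = g.linear (tr c v) := by
  have h1 := lin_sub f v 0
  have h2 := lin_sub g (tr c v) (tr c 0)
  rw [sub_zero] at h1
  rw [h1, h, h, ← h2, ← tr_sub, sub_zero]

theorem HS_step (hS : TaskSTEP) (hE : TaskEXT) (iB : A →* B) (iC : A →* C)
    (α : W →ᵃ[ℝ] (B → ℝ)) (β : W →ᵃ[ℝ] (C → ℝ)) (F : Set W) (ε : ℝ) (w₀ : W)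
    (act : A → W → W) (hB : Function.Injective iB) (hC : Function.Injective iC)
    (hα : ∀ a w, α (act a w) = tr (iB a) (α w)) (hβ : ∀ a w, β (act a w) = tr (iC a) (β w))
    (hF : ∀ a, ∀ w ∈ F, act a w ∈ F) (δ η θ R L M : ℝ)
    (hδ : 0 ≤ δ) (hδ1 : δ < 1) (hη : δ ≤ η) (hη1 : η ≤ 1) (hθ : 0 ≤ θ) (hθ1 : θ ≤ 1) (hL : 0 ≤ L)
    (hL1 : L ≤ 1) (hα1 : ∀ w, ‖α.linear w‖ ≤ ‖w‖) (hβ1 : ∀ w, (1 - δ) * ‖w‖ ≤ ‖β.linear w‖)
    (hR : ∀ w ∈ F, ‖w - w₀‖ ≤ R) (hε : θ * M + η * L * R ≤ ε)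
    (h : HS iB iC α β F ε w₀ L M) :
    HS iC iB β α F ε w₀ ((1 - η) / (1 - δ) * L)
      ((1 - θ) * M + (1 - η) / (1 - δ) * L * (2 * ‖β w₀‖)) := by
  classical
  obtain ⟨s, x₀, hp, hq, hfr⟩ := h
  have hκ0 : 0 ≤ (1 - η) / (1 - δ) := div_nonneg (by linarith) (by linarith)
  have hκ1 : (1 - η) / (1 - δ) ≤ 1 := (div_le_one (by linarith)).2 (by linarith)
  have hκL : (1 - η) / (1 - δ) * L ≤ 1 := mul_le_one₀ hκ1 hL hL1
  have hex : ∀ x : s.X, ∃ q : (C → ℝ) →ᵃ[ℝ] ℝ,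
      (∀ v, |q.linear v| ≤ (1 - η) / (1 - δ) * L * ‖v‖) ∧
      (x ∉ s.S → q (β w₀) = (1 - θ) * s.p x (α w₀) ∧
        ∀ w ∈ F, |s.p x (α w) - q (β w)| ≤ ε) := by
    intro x
    by_cases hx : x ∈ s.S
    · refine ⟨0, fun v => ?_, fun h => absurd hx h⟩
      have : |(0 : (C → ℝ) →ᵃ[ℝ] ℝ).linear v| = 0 := by simp
      rw [this]
      positivity
    · obtain ⟨h1, h2⟩ := hfr x hx
      obtain ⟨q, hq1, hq2, hq3⟩ := hE B C W α β δ η θ L hδ hδ1 hη hη1 hθ hθ1 hL hα1 hβ1 w₀ (s.p x) h1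
      refine ⟨q, hq1, fun _ => ⟨hq2, fun w hw => (hq3 w).trans ?_⟩⟩
      refine le_trans (add_le_add (mul_le_mul_of_nonneg_left h2 hθ)
        (mul_le_mul_of_nonneg_left (hR w hw) (mul_nonneg (hδ.trans hη) hL))) hε
  choose q' hq1 hq2 using hex
  obtain ⟨t, j, hj, htS, htp, htq, _, hty⟩ := hS A B C W iB iC α β F ε act hB hC hα hβ hF s q' x₀
    (fun x v => (hq1 x v).trans (by
      have := mul_le_mul_of_nonneg_right hκL (norm_nonneg v)
      rwa [one_mul] at this))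
    (fun x hx w hw => (hq2 x hx).2 w hw)
  have hjx : j x₀ ∈ t.S := (htS _).2 ⟨_, rfl⟩
  refine ⟨t, ⟨j x₀, hjx⟩, ?_, ?_, ?_⟩
  · intro v
    rw [htp x₀]
    exact hq v
  · intro v
    rw [htq x₀ hjx]
    exact hp v
  · intro y hy
    obtain ⟨x, hx, c, hc⟩ := hty y hy
    have hlin := lin_of_tr (t.p y) (q' x) c⁻¹ hc
    refine ⟨fun v => ?_, ?_⟩
    · rw [hlin]
      refine (hq1 x _).trans ?_
      rw [norm_tr]
    · rw [hc]
      have h1 := lin_sub (q' x) (tr c⁻¹ (β w₀)) (β w₀)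
      have h2 : q' x (tr c⁻¹ (β w₀)) = q' x (β w₀) +
          (q' x).linear (tr c⁻¹ (β w₀) - β w₀) := by rw [h1]; ring
      rw [h2, (hq2 x hx).1]
      refine (abs_add_le _ _).trans (add_le_add ?_ ?_)
      · rw [abs_mul, abs_of_nonneg (by linarith : 0 ≤ 1 - θ)]
        exact mul_le_mul_of_nonneg_left (hfr x hx).2 (by linarith)
      · refine (hq1 x _).trans (mul_le_mul_of_nonneg_left ?_ (mul_nonneg hκ0 hL))
        refine (norm_sub_le _ _).trans ?_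
        rw [norm_tr]
        linarith

theorem HS_init (hS : TaskSTEP) (hE : TaskEXT) (iB : A →* B) (iC : A →* C)
    (α : W →ᵃ[ℝ] (B → ℝ)) (β : W →ᵃ[ℝ] (C → ℝ)) (F : Set W) (ε : ℝ) (w₀ : W)
    (act : A → W → W) (hB : Function.Injective iB) (hC : Function.Injective iC)
    (hα : ∀ a w, α (act a w) = tr (iB a) (α w)) (hβ : ∀ a w, β (act a w) = tr (iC a) (β w))
    (hF : ∀ a, ∀ w ∈ F, act a w ∈ F) (δ η θ R : ℝ) (h1 : ∀ w, α w 1 = β w 1)
    (hδ : 0 ≤ δ) (hδ1 : δ < 1) (hη : δ ≤ η) (hη1 : η ≤ 1) (hθ : 0 ≤ θ) (hθ1 : θ ≤ 1)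
    (hβ1 : ∀ w, ‖β.linear w‖ ≤ ‖w‖) (hα1 : ∀ w, (1 - δ) * ‖w‖ ≤ ‖α.linear w‖)
    (hR : ∀ w ∈ F, ‖w - w₀‖ ≤ R) (hε0 : 0 ≤ ε) (hε : θ * ‖β w₀‖ + η * R ≤ ε) :
    HS iB iC α β F ε w₀ 1 (‖β w₀‖ + 2 * ‖α w₀‖) := by
  classical
  have hκ0 : 0 ≤ (1 - η) / (1 - δ) := div_nonneg (by linarith) (by linarith)
  have hκ1 : (1 - η) / (1 - δ) ≤ 1 := (div_le_one (by linarith)).2 (by linarith)
  let ev : ∀ {E : Type}, E → ((E → ℝ) →ᵃ[ℝ] ℝ) := fun x => (LinearMap.proj x).toAffineMap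
  have hev : ∀ {E : Type} (x : E) (v : E → ℝ), ev x v = v x := fun _ _ => rfl
  have hevl : ∀ {E : Type} (x : E) (v : E → ℝ), (ev x).linear v = v x := fun _ _ => rfl
  let s : Sys iC iB β α F ε :=
    { X := C
      ρ := MulAction.toPermHom C C
      S := ∅
      σ := 1
      p := fun x => ev x
      q := fun x => absurd x.2 (Set.notMem_empty _)
      freeρ := fun b x h => by
        have : b * x = x := h
        exact mul_eq_right.1 this
      freeσ := fun c x => absurd x.2 (Set.notMem_empty _)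
      agree := fun a x => absurd x.2 (Set.notMem_empty _)
      lipp := fun x v => by
        rw [hevl]
        exact norm_le_pi_norm v x
      lipq := fun x => absurd x.2 (Set.notMem_empty _)
      eqp := fun b x v => by
        show (tr b v) (b * x) = v x
        simp [tr]
      eqq := fun c x => absurd x.2 (Set.notMem_empty _)
      near := fun x => absurd x.2 (Set.notMem_empty _) }
  have hex : ∀ x : C, ∃ q : (B → ℝ) →ᵃ[ℝ] ℝ,
      (∀ v, |q.linear v| ≤ ‖v‖) ∧ |q (α w₀)| ≤ ‖β w₀‖ ∧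
      (∀ w ∈ F, |ev x (β w) - q (α w)| ≤ ε) ∧ (x = 1 → q = ev 1) := by
    intro x
    by_cases hx : x = 1
    · subst hx
      refine ⟨ev 1, fun v => ?_, ?_, fun w hw => ?_, fun _ => rfl⟩
      · rw [hevl]
        exact norm_le_pi_norm v 1
      · rw [hev, h1]
        exact norm_le_pi_norm (β w₀) 1
      · rw [hev, hev, h1, sub_self, abs_zero]
        exact hε0
    · obtain ⟨q, hq1, hq2, hq3⟩ := hE C B W β α δ η θ 1 hδ hδ1 hη hη1 hθ hθ1 zero_le_one hβ1 hα1 w₀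
        (ev x) (fun v => by rw [hevl, one_mul]; exact norm_le_pi_norm v x)
      refine ⟨q, fun v => (hq1 v).trans ?_, ?_, fun w hw => (hq3 w).trans ?_, fun h => absurd h hx⟩
      · have := mul_le_mul_of_nonneg_right hκ1 (norm_nonneg v)
        rw [mul_one]
        rwa [one_mul] at this
      · rw [hq2, abs_mul, abs_of_nonneg (by linarith : 0 ≤ 1 - θ), hev]
        have h2 := norm_le_pi_norm (β w₀) x
        rw [Real.norm_eq_abs] at h2
        calc (1 - θ) * |β w₀ x| ≤ 1 * ‖β w₀‖ :=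
              mul_le_mul (by linarith) h2 (abs_nonneg _) zero_le_one
          _ = _ := one_mul _
      · rw [hev, mul_one]
        have h2 := norm_le_pi_norm (β w₀) x
        rw [Real.norm_eq_abs] at h2
        exact le_trans (add_le_add (mul_le_mul_of_nonneg_left h2 hθ)
          (mul_le_mul_of_nonneg_left (hR w hw) (hδ.trans hη))) hε
  choose q' hq1 hq2 hq3 hq4 using hex
  obtain ⟨t, j, hj, htS, htp, htq, htx, hty⟩ := hS A C B W iC iB β α F ε act hC hB hβ hα hF s q'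
    (1 : C) hq1 (fun x _ w hw => hq3 x w hw)
  have hjx : j (1 : C) ∈ t.S := (htS _).2 ⟨_, rfl⟩
  refine ⟨t, ⟨j (1 : C), hjx⟩, ?_, ?_, ?_⟩
  · intro v
    rw [htx (Set.notMem_empty _), hq4 1 rfl]
    rfl
  · intro v
    rw [htq (1 : C) hjx]
    rfl
  · intro y hy
    obtain ⟨x, hx, c, hc⟩ := hty y hy
    have hlin := lin_of_tr (t.p y) (q' x) c⁻¹ hc
    refine ⟨fun v => ?_, ?_⟩
    · rw [hlin, one_mul]
      refine (hq1 x _).trans ?_
      rw [norm_tr]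
    · rw [hc]
      have h1 := lin_sub (q' x) (tr c⁻¹ (α w₀)) (α w₀)
      have h2 : q' x (tr c⁻¹ (α w₀)) = q' x (α w₀) +
          (q' x).linear (tr c⁻¹ (α w₀) - α w₀) := by rw [h1]; ring
      rw [h2]
      refine (abs_add_le _ _).trans (add_le_add (hq2 x) ?_)
      refine (hq1 x _).trans ?_
      refine (norm_sub_le _ _).trans ?_
      rw [norm_tr]
      linarith

/-- the constants of the construction -/
theorem exists_seq (κ θ M₀ D₀ : ℝ) (hκ : 0 ≤ κ) (hκ1 : κ < 1) (hθ : 0 < θ) (hθ1 : θ ≤ 1)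
    (hM : 0 ≤ M₀) (hD : 0 ≤ D₀) (R ε : ℝ) (hε : 0 < ε) :
    ∃ M : ℕ → ℝ, M 0 = M₀ ∧ (∀ k, M (k + 1) = (1 - θ) * M k + κ ^ (k + 1) * D₀) ∧ (∀ k, 0 ≤ M k) ∧
      (∀ k, M k ≤ M₀ + D₀ * (κ / (1 - κ))) ∧ ∃ k, M k + κ ^ k * R ≤ ε := by
  let M : ℕ → ℝ := fun n => Nat.rec M₀ (fun k m => (1 - θ) * m + κ ^ (k + 1) * D₀) n
  have h0 : M 0 = M₀ := rfl
  have hs : ∀ k, M (k + 1) = (1 - θ) * M k + κ ^ (k + 1) * D₀ := fun k => rfl
  have hpos : ∀ k, 0 ≤ M k := by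
    intro k
    induction k with
    | zero => exact hM
    | succ k ih =>
      rw [hs]
      have : 0 ≤ 1 - θ := by linarith
      positivity
  have h1κ : 0 < 1 - κ := by linarith
  refine ⟨M, h0, hs, hpos, ?_, ?_⟩
  · have hb : ∀ k, M k ≤ M₀ + D₀ * (κ / (1 - κ)) - D₀ * κ ^ k * (κ / (1 - κ)) := by
      intro k
      induction k with
      | zero => rw [h0]; simp
      | succ k ih =>
        rw [hs]
        have h1 : (1 - θ) * M k ≤ M k := by nlinarith [hpos k]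
        have h2 : κ ^ (k + 1) * D₀ - D₀ * κ ^ k * (κ / (1 - κ)) =
            - (D₀ * κ ^ (k + 1) * (κ / (1 - κ))) := by
          rw [pow_succ]
          field_simp
          ring
        linarith
    intro k
    have : 0 ≤ D₀ * κ ^ k * (κ / (1 - κ)) := by positivity
    linarith [hb k]
  · let r := max (1 - θ) κ
    have hr0 : 0 ≤ r := le_max_of_le_right hκ
    have hr1 : r < 1 := max_lt (by linarith) hκ1
    have hb : ∀ k : ℕ, M k ≤ r ^ k * M₀ + k * r ^ k * D₀ := by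
      intro k
      induction k with
      | zero => rw [h0]; simp
      | succ k ih =>
        rw [hs]
        have h1 : (1 - θ) * M k ≤ r * (r ^ k * M₀ + k * r ^ k * D₀) :=
          mul_le_mul (le_max_left _ _) ih (hpos k) hr0
        have h2 : κ ^ (k + 1) * D₀ ≤ r ^ (k + 1) * D₀ :=
          mul_le_mul_of_nonneg_right (pow_le_pow_left₀ hκ (le_max_right _ _) _) hD
        push_cast
        have h3 : r ^ (k + 1) * M₀ + ((k : ℝ) + 1) * r ^ (k + 1) * D₀ =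
            r * (r ^ k * M₀ + k * r ^ k * D₀) + r ^ (k + 1) * D₀ := by ring
        rw [h3]
        exact add_le_add h1 h2
    have ht1 : Tendsto (fun k : ℕ => r ^ k) atTop (𝓝 0) :=
      tendsto_pow_atTop_nhds_zero_of_lt_one hr0 hr1
    have ht2 : Tendsto (fun k : ℕ => (k : ℝ) * r ^ k) atTop (𝓝 0) :=
      tendsto_self_mul_const_pow_of_lt_one hr0 hr1
    have ht3 : Tendsto (fun k : ℕ => κ ^ k) atTop (𝓝 0) :=
      tendsto_pow_atTop_nhds_zero_of_lt_one hκ hκ1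
    have ht : Tendsto (fun k : ℕ => r ^ k * M₀ + k * r ^ k * D₀ + κ ^ k * R) atTop
        (𝓝 (0 * M₀ + 0 * D₀ + 0 * R)) :=
      ((ht1.mul_const M₀).add (ht2.mul_const D₀)).add (ht3.mul_const R)
    simp only [zero_mul, add_zero] at ht
    obtain ⟨k, hk⟩ := (ht.eventually (gt_mem_nhds hε)).exists
    exact ⟨k, by linarith [hb k]⟩

end

section
variable {A : Type} [Group A] {B C : FG} {W : Type} [NormedAddCommGroup W] [NormedSpace ℝ W]

/-- from a complete system to the amalgam -/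
theorem NA_fin (hCl : TaskCLOSE) (iB : A →* B.T) (iC : A →* C.T)
    (α : W →ᵃ[ℝ] (B.T → ℝ)) (β : W →ᵃ[ℝ] (C.T → ℝ)) (F : Set W) (ε : ℝ) (w₀ : W) (L M R : ℝ)
    (hε : 0 ≤ ε) (hL : 0 ≤ L)
    (hB : Function.Injective iB) (hC : Function.Injective iC)
    (hα1 : ∀ w, ‖α.linear w‖ ≤ ‖w‖) (hR : ∀ w ∈ F, ‖w - w₀‖ ≤ R) (hLM : M + L * R ≤ ε)
    (h : HS iB iC α β F ε w₀ L M) :
    ∃ (D : FG) (μ : B ⟶ D) (ν : C ⟶ D), (∀ a, Mor.i μ (iB a) = Mor.i ν (iC a)) ∧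
        ∀ w ∈ F, ‖Mor.e μ (α w) - Mor.e ν (β w)‖ ≤ ε := by
  classical
  obtain ⟨s, x₀, hp, hq, hfr⟩ := h
  obtain ⟨T, _, ρ, σ, p, q, j, hρ, hσ, hag, hlp, hlq, hep, heq, hnear, hjp, hjq⟩ :=
    hCl A B.T C.T W iB iC α β F ε hB hC s (by
      intro x hx w hw
      obtain ⟨h1, h2⟩ := hfr x hx
      have h3 := lin_sub (s.p x) (α w) (α w₀)
      have h4 : s.p x (α w) = s.p x (α w₀) + (s.p x).linear (α w - α w₀) := by rw [h3]; ring
      rw [h4]
      refine (abs_add_le _ _).trans (le_trans (add_le_add h2 ?_) hLM)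
      refine (h1 _).trans (mul_le_mul_of_nonneg_left ?_ hL)
      rw [← lin_sub' α]
      exact (hα1 _).trans (hR w hw))
  set y₀ : T := j x₀ with hy₀
  have hpy : ∀ v, p y₀ v = v 1 := fun v => by rw [hjp]; exact hp v
  have hqy : ∀ v, q y₀ v = v 1 := fun v => by rw [hjq]; exact hq v
  let D : FG := { T := Equiv.Perm T, grp := inferInstance, fin := inferInstance }
  let μ : Mor B D :=
    { i := ρ
      e := AffineMap.pi fun d : Equiv.Perm T => p (d y₀)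
      inj := by
        refine (injective_iff_map_eq_one ρ).2 fun b hb => hρ b y₀ ?_
        rw [hb]; rfl
      lip := fun v => by
        refine (pi_norm_le_iff_of_nonneg (norm_nonneg _)).2 fun d => ?_
        exact hlp (d y₀) v
      res := fun v d => by
        show p (ρ d y₀) v = v d
        have := hep d y₀ (tr d⁻¹ v)
        rw [tr_tr_inv, hpy] at this
        rw [this]
        simp [tr]
      equi := fun b v => by
        funext d
        show p (d y₀) (tr b v) = p ((ρ b)⁻¹ (d y₀)) v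
        have := hep b ((ρ b)⁻¹ (d y₀)) v
        have h5 : (ρ b) ((ρ b)⁻¹ (d y₀)) = d y₀ := Equiv.apply_symm_apply (ρ b) (d y₀)
        rw [h5] at this
        exact this }
  let ν : Mor C D :=
    { i := σ
      e := AffineMap.pi fun d : Equiv.Perm T => q (d y₀)
      inj := by
        refine (injective_iff_map_eq_one σ).2 fun b hb => hσ b y₀ ?_
        rw [hb]; rfl
      lip := fun v => by
        refine (pi_norm_le_iff_of_nonneg (norm_nonneg _)).2 fun d => ?_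
        exact hlq (d y₀) v
      res := fun v d => by
        show q (σ d y₀) v = v d
        have := heq d y₀ (tr d⁻¹ v)
        rw [tr_tr_inv, hqy] at this
        rw [this]
        simp [tr]
      equi := fun b v => by
        funext d
        show q (d y₀) (tr b v) = q ((σ b)⁻¹ (d y₀)) v
        have := heq b ((σ b)⁻¹ (d y₀)) v
        have h5 : (σ b) ((σ b)⁻¹ (d y₀)) = d y₀ := Equiv.apply_symm_apply (σ b) (d y₀)
        rw [h5] at this
        exact this }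
  refine ⟨D, μ, ν, fun a => hag a, fun w hw => ?_⟩
  refine (pi_norm_le_iff_of_nonneg hε).2 fun d => ?_
  exact hnear (d y₀) w hw

end

theorem taskNA (hS : TaskSTEP) (hCl : TaskCLOSE) (hE : TaskEXT) : TaskNA := by
  intro A _ _ B C iB iC hB hC W _ _ act α β δ hδ hδ1 hα1 hβ1 hα2 hβ2 hα hβ h1 F hFf hF w₀ hw₀ ε hε hδε
  classical
  -- the radius
  obtain ⟨R, hR0, hR, hRε⟩ : ∃ R : ℝ, 0 ≤ R ∧ (∀ w ∈ F, ‖w - w₀‖ ≤ R) ∧ δ * R < ε := by
    obtain ⟨w₁, hw₁, hmax⟩ := hFf.exists_maximalFor (fun w => ‖w - w₀‖) F ⟨w₀, hw₀⟩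
    refine ⟨‖w₁ - w₀‖, norm_nonneg _, fun w hw => ?_, hδε w₁ hw₁⟩
    by_contra hlt
    push Not at hlt
    exact absurd (hmax hw hlt.le) (not_le.2 hlt)
  -- the constants
  obtain ⟨η, hη, hη1, hηR⟩ : ∃ η : ℝ, δ < η ∧ η < 1 ∧ η * R < ε := by
    have h2 : Tendsto (fun η : ℝ => η * R) (𝓝[>] δ) (𝓝 (δ * R)) :=
      ((continuous_id.mul continuous_const).tendsto δ).mono_left nhdsWithin_le_nhds
    have h3 : ∀ᶠ η in 𝓝[>] δ, η * R < ε := h2.eventually (gt_mem_nhds hRε)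
    have h4 : ∀ᶠ η in 𝓝[>] δ, η < 1 := nhdsWithin_le_nhds (gt_mem_nhds hδ1)
    have h5 : ∀ᶠ η in 𝓝[>] δ, δ < η := eventually_mem_nhdsWithin
    obtain ⟨η, a, b, c⟩ := (h3.and (h4.and h5)).exists
    exact ⟨η, c, b, a⟩
  set κ := (1 - η) / (1 - δ) with hκ
  have hκ0 : 0 ≤ κ := div_nonneg (by linarith) (by linarith)
  have hκ1 : κ < 1 := (div_lt_one (by linarith)).2 (by linarith)
  set M₀ : ℝ := ‖β w₀‖ + ‖α w₀‖ + 2 * ‖α w₀‖ + 2 * ‖β w₀‖ with hM₀
  set D₀ : ℝ := 2 * ‖α w₀‖ + 2 * ‖β w₀‖ with hD₀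
  have hM₀0 : 0 ≤ M₀ := by positivity
  have hD₀0 : 0 ≤ D₀ := by positivity
  set Mx : ℝ := M₀ + D₀ * (κ / (1 - κ)) with hMx
  have hMx0 : 0 ≤ Mx := by
    have : 0 ≤ κ / (1 - κ) := div_nonneg hκ0 (by linarith)
    positivity
  obtain ⟨θ, hθ, hθ1, hθM⟩ : ∃ θ : ℝ, 0 < θ ∧ θ ≤ 1 ∧ θ * Mx + η * R ≤ ε := by
    refine ⟨min 1 ((ε - η * R) / (Mx + 1)), lt_min one_pos (div_pos (by linarith) (by linarith)),
      min_le_left _ _, ?_⟩
    have h2 : min 1 ((ε - η * R) / (Mx + 1)) * Mx ≤ (ε - η * R) / (Mx + 1) * (Mx + 1) :=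
      mul_le_mul (min_le_right _ _) (by linarith) hMx0 (div_nonneg (by linarith) (by linarith))
    rw [div_mul_cancel₀ _ (by linarith : Mx + 1 ≠ 0)] at h2
    linarith
  obtain ⟨M, hM0, hMs, hMpos, hMb, K, hK⟩ :=
    exists_seq κ θ M₀ D₀ hκ0 hκ1 hθ hθ1 hM₀0 hD₀0 R ε hε
  have hmono : ∀ {A B C : Type} [Group A] [Group B] [Fintype B] [Group C] [Fintype C]
      (iB : A →* B) (iC : A →* C) (α : W →ᵃ[ℝ] (B → ℝ)) (β : W →ᵃ[ℝ] (C → ℝ)) (L M M' : ℝ),
      M ≤ M' → HS iB iC α β F ε w₀ L M → HS iB iC α β F ε w₀ L M' := by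
    intro A B C _ _ _ _ _ iB iC α β L M M' hMM ⟨s, x₀, a, b, c⟩
    exact ⟨s, x₀, a, b, fun x hx => ⟨(c x hx).1, (c x hx).2.trans hMM⟩⟩
  have hβM : θ * ‖β w₀‖ + η * R ≤ ε := by
    have : ‖β w₀‖ ≤ Mx := by
      have h3 : 0 ≤ D₀ * (κ / (1 - κ)) := mul_nonneg hD₀0 (div_nonneg hκ0 (by linarith))
      have h4 := norm_nonneg (β w₀)
      have h5 := norm_nonneg (α w₀)
      rw [hMx, hM₀]
      linarith
    nlinarith
  have main : ∀ k, HS iB iC α β F ε w₀ (κ ^ k) (M k) ∨ HS iC iB β α F ε w₀ (κ ^ k) (M k) := by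
    intro k
    induction k with
    | zero =>
      left
      rw [hM0, pow_zero]
      refine hmono iB iC α β _ _ _ ?_ (HS_init hS hE iB iC α β F ε w₀ act hB hC hα hβ hF δ η θ R h1
        hδ hδ1 hη.le hη1.le hθ.le hθ1 hβ1 hα2 hR hε.le hβM)
      have h4 := norm_nonneg (β w₀)
      have h5 := norm_nonneg (α w₀)
      rw [hM₀]
      linarith
    | succ k ih =>
      have hk1 : κ ^ k ≤ 1 := pow_le_one₀ hκ0 hκ1.le
      have hk0 : 0 ≤ κ ^ k := pow_nonneg hκ0 k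
      have hεk : θ * M k + η * κ ^ k * R ≤ ε := by
        have h3 : θ * M k ≤ θ * Mx := mul_le_mul_of_nonneg_left (hMb k) hθ.le
        have h4 : η * κ ^ k * R ≤ η * R := by
          have h5 : η * κ ^ k ≤ η * 1 := mul_le_mul_of_nonneg_left hk1 (by linarith)
          rw [mul_one] at h5
          exact mul_le_mul_of_nonneg_right h5 hR0
        linarith
      have hpow : κ ^ (k + 1) = (1 - η) / (1 - δ) * κ ^ k := by rw [pow_succ, ← hκ, mul_comm]
      rcases ih with ih | ih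
      · right
        have := HS_step hS hE iB iC α β F ε w₀ act hB hC hα hβ hF δ η θ R (κ ^ k) (M k) hδ hδ1
          hη.le hη1.le hθ.le hθ1 hk0 hk1 hα1 hβ2 hR hεk ih
        rw [← hpow] at this
        refine hmono iC iB β α _ _ _ ?_ this
        rw [hMs]
        have h3 : κ ^ (k + 1) * (2 * ‖β w₀‖) ≤ κ ^ (k + 1) * D₀ :=
          mul_le_mul_of_nonneg_left (by rw [hD₀]; linarith [norm_nonneg (α w₀)])
            (pow_nonneg hκ0 _)
        linarith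
      · left
        have := HS_step hS hE iC iB β α F ε w₀ act hC hB hβ hα hF δ η θ R (κ ^ k) (M k) hδ hδ1
          hη.le hη1.le hθ.le hθ1 hk0 hk1 hβ1 hα2 hR hεk ih
        rw [← hpow] at this
        refine hmono iB iC α β _ _ _ ?_ this
        rw [hMs]
        have h3 : κ ^ (k + 1) * (2 * ‖α w₀‖) ≤ κ ^ (k + 1) * D₀ :=
          mul_le_mul_of_nonneg_left (by rw [hD₀]; linarith [norm_nonneg (β w₀)])
            (pow_nonneg hκ0 _)
        linarith
  rcases main K with h | h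
  · exact NA_fin hCl iB iC α β F ε w₀ _ _ R hε.le (pow_nonneg hκ0 K) hB hC hα1 hR hK h
  · obtain ⟨D, μ, ν, h2, h3⟩ := NA_fin hCl iC iB β α F ε w₀ _ _ R hε.le (pow_nonneg hκ0 K) hC hB
      hβ1 hR hK h
    exact ⟨D, ν, μ, fun a => (h2 a).symm, fun w hw => by rw [norm_sub_rev]; exact h3 w hw⟩

end R658.UA
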