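import Pool.Agent.R658.UA.Defs

/-! # MP_a2e83c_al: statements of the tasks (proofs in the doc comments) -/

set_option autoImplicit false

namespace R658.UA

open Topology CategoryTheory TopologicalSpace Filter

/-- partial systems: a finite set `X` with a free action `ρ` of `B`, a subset `S` with a free action `σ` of `C`,
the two actions of `A` on `S` agree; `p x` (`x ∈ X`) are affine functionals on `ℝ^B`, `q x` (`x ∈ S`) are affine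
functionals on `ℝ^C`, both families are equivariant, and they nearly agree on the points of `F`. -/
structure Sys {A B C : Type} [Group A] [Group B] [Fintype B] [Group C] [Fintype C] {W : Type}
    [NormedAddCommGroup W] [NormedSpace ℝ W] (iB : A →* B) (iC : A →* C)
    (α : W →ᵃ[ℝ] (B → ℝ)) (β : W →ᵃ[ℝ] (C → ℝ)) (F : Set W) (ε : ℝ) where
  X : Type
  [fin : Fintype X]
  ρ : B →* Equiv.Perm X
  S : Set X
  σ : C →* Equiv.Perm S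
  p : X → ((B → ℝ) →ᵃ[ℝ] ℝ)
  q : S → ((C → ℝ) →ᵃ[ℝ] ℝ)
  freeρ : ∀ b x, ρ b x = x → b = 1
  freeσ : ∀ c x, σ c x = x → c = 1
  agree : ∀ a (x : S), ρ (iB a) (x : X) = (σ (iC a) x : X)
  lipp : ∀ x v, |(p x).linear v| ≤ ‖v‖
  lipq : ∀ x v, |(q x).linear v| ≤ ‖v‖
  eqp : ∀ b x v, p (ρ b x) (tr b v) = p x v
  eqq : ∀ c x v, q (σ c x) (tr c v) = q x v
  near : ∀ (x : S), ∀ w ∈ F, |p x (α w) - q x (β w)| ≤ ε

/-- TASK STEP.  `N = X \ S` is invariant under the (free) action of `A` through `ρ ∘ iB`.  Choose a set `R` of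
representatives of the `A`-orbits in `N`, with `xs ∈ R` if `xs ∈ N`.  `Y = S ⊕ (R × C)`; `C` acts on `S` by `σ` and on
`R × C` by `c • (r, c') = (r, c * c')`; `j x = inl x` for `x ∈ S`, `j (ρ (iB a) r) = inr (r, iC a)`; `t.S = range j` with the
action of `B` transported from `X`; `t.p (inl x) = s.q x`, `t.p (inr (r, c)) v = q' r (tr c⁻¹ v)`, `t.q (j x) = s.p x`.
Near agreement at `j (ρ (iB a) r)`: use `tr (iB a)⁻¹ (α w) = α (act a⁻¹ w)`, `tr (iC a)⁻¹ (β w) = β (act a⁻¹ w)` and `act a⁻¹ w ∈ F`. -/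
def TaskSTEP : Prop :=
  ∀ (A B C : Type) [Group A] [Group B] [Fintype B] [Group C] [Fintype C] (W : Type)
    [NormedAddCommGroup W] [NormedSpace ℝ W] (iB : A →* B) (iC : A →* C)
    (α : W →ᵃ[ℝ] (B → ℝ)) (β : W →ᵃ[ℝ] (C → ℝ)) (F : Set W) (ε : ℝ) (act : A → W → W),
    Function.Injective iB → Function.Injective iC →
    (∀ a w, α (act a w) = tr (iB a) (α w)) → (∀ a w, β (act a w) = tr (iC a) (β w)) →
    (∀ a, ∀ w ∈ F, act a w ∈ F) →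
    ∀ (s : Sys iB iC α β F ε) (q' : s.X → ((C → ℝ) →ᵃ[ℝ] ℝ)) (xs : s.X),
    (∀ x v, |(q' x).linear v| ≤ ‖v‖) → (∀ x ∉ s.S, ∀ w ∈ F, |s.p x (α w) - q' x (β w)| ≤ ε) →
    ∃ (t : Sys iC iB β α F ε) (j : s.X → t.X), Function.Injective j ∧
      (∀ y, y ∈ t.S ↔ ∃ x, j x = y) ∧ (∀ x : s.S, t.p (j x) = s.q x) ∧
      (∀ (x : s.X) (h : j x ∈ t.S), t.q ⟨j x, h⟩ = s.p x) ∧
      (xs ∉ s.S → t.p (j xs) = q' xs) ∧
      ∀ y ∉ t.S, ∃ x ∉ s.S, ∃ c : C, ∀ v, t.p y v = q' x (tr c⁻¹ v)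

/-- TASK CLOSE.  Let `K ⊆ C` be a right transversal of `iC A` (every `c` is uniquely `iC a * k`), `N = X \ S`, `R ⊆ N` a set
of representatives of the orbits of `A` (acting through `ρ ∘ iB`, freely).  `T = X × K`; `B` acts on the first coordinate;
`C` acts on `S × K` by `σ` on the first coordinate and on `N × K ≃ R × C`, `(ρ (iB a) r, k) ↦ (r, iC a * k)`, by left
multiplication on `C`.  `p (x, k) = s.p x`; `q (x, k) = s.q x` for `x ∈ S` and `0` for `x ∈ N`. -/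
def TaskCLOSE : Prop :=
  ∀ (A B C : Type) [Group A] [Group B] [Fintype B] [Group C] [Fintype C] (W : Type)
    [NormedAddCommGroup W] [NormedSpace ℝ W] (iB : A →* B) (iC : A →* C)
    (α : W →ᵃ[ℝ] (B → ℝ)) (β : W →ᵃ[ℝ] (C → ℝ)) (F : Set W) (ε : ℝ),
    Function.Injective iB → Function.Injective iC →
    ∀ s : Sys iB iC α β F ε, (∀ x ∉ s.S, ∀ w ∈ F, |s.p x (α w)| ≤ ε) →
    ∃ (T : Type) (_ : Fintype T) (ρ : B →* Equiv.Perm T) (σ : C →* Equiv.Perm T)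
      (p : T → ((B → ℝ) →ᵃ[ℝ] ℝ)) (q : T → ((C → ℝ) →ᵃ[ℝ] ℝ)) (j : s.S → T),
      (∀ b x, ρ b x = x → b = 1) ∧ (∀ c x, σ c x = x → c = 1) ∧ (∀ a, ρ (iB a) = σ (iC a)) ∧
      (∀ x v, |(p x).linear v| ≤ ‖v‖) ∧ (∀ x v, |(q x).linear v| ≤ ‖v‖) ∧
      (∀ b x v, p (ρ b x) (tr b v) = p x v) ∧ (∀ c x v, q (σ c x) (tr c v) = q x v) ∧
      (∀ x, ∀ w ∈ F, |p x (α w) - q x (β w)| ≤ ε) ∧
      (∀ x, p (j x) = s.p x) ∧ (∀ x, q (j x) = s.q x)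

/-- TASK EXT.  `l w = p.linear (α.linear w)` satisfies `|l w| ≤ L ‖w‖ ≤ L / (1 - δ) * ‖β.linear w‖`, so `(1 - η) l` factors
through the injective map `β.linear` and extends (Hahn-Banach, `exists_extension_norm_eq`) to a functional `g` on
`ℝ^C` with `|g v| ≤ (1 - η) / (1 - δ) * L * ‖v‖`.  `q v = g (v - β w₀) + (1 - θ) * p (α w₀)`. -/
def TaskEXT : Prop :=
  ∀ (B C : Type) [Fintype B] [Fintype C] (W : Type) [NormedAddCommGroup W] [NormedSpace ℝ W]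
    (α : W →ᵃ[ℝ] (B → ℝ)) (β : W →ᵃ[ℝ] (C → ℝ)) (δ η θ L : ℝ), 0 ≤ δ → δ < 1 → δ ≤ η → η ≤ 1 →
    0 ≤ θ → θ ≤ 1 → 0 ≤ L → (∀ w, ‖α.linear w‖ ≤ ‖w‖) → (∀ w, (1 - δ) * ‖w‖ ≤ ‖β.linear w‖) →
    ∀ (w₀ : W) (p : (B → ℝ) →ᵃ[ℝ] ℝ), (∀ v, |p.linear v| ≤ L * ‖v‖) →
    ∃ q : (C → ℝ) →ᵃ[ℝ] ℝ, (∀ v, |q.linear v| ≤ (1 - η) / (1 - δ) * L * ‖v‖) ∧
      q (β w₀) = (1 - θ) * p (α w₀) ∧
      ∀ w, |p (α w) - q (β w)| ≤ θ * |p (α w₀)| + η * L * ‖w - w₀‖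

/-- TASK NA (near amalgamation); helper658 derives it from STEP, CLOSE, EXT. -/
def TaskNA : Prop :=
  ∀ (A : Type) [Group A] [Finite A] (B C : FG) (iB : A →* B.T) (iC : A →* C.T),
    Function.Injective iB → Function.Injective iC →
    ∀ (W : Type) [NormedAddCommGroup W] [NormedSpace ℝ W] (act : A → W → W)
      (α : W →ᵃ[ℝ] (B.T → ℝ)) (β : W →ᵃ[ℝ] (C.T → ℝ)) (δ : ℝ), 0 ≤ δ → δ < 1 →
      (∀ w, ‖α.linear w‖ ≤ ‖w‖) → (∀ w, ‖β.linear w‖ ≤ ‖w‖) →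
      (∀ w, (1 - δ) * ‖w‖ ≤ ‖α.linear w‖) → (∀ w, (1 - δ) * ‖w‖ ≤ ‖β.linear w‖) →
      (∀ a w, α (act a w) = tr (iB a) (α w)) → (∀ a w, β (act a w) = tr (iC a) (β w)) →
      (∀ w, α w 1 = β w 1) →
      ∀ F : Set W, F.Finite → (∀ a, ∀ w ∈ F, act a w ∈ F) → ∀ w₀ ∈ F, ∀ ε > (0 : ℝ),
      (∀ w ∈ F, δ * ‖w - w₀‖ < ε) →
      ∃ (D : FG) (μ : B ⟶ D) (ν : C ⟶ D), (∀ a, Mor.i μ (iB a) = Mor.i ν (iC a)) ∧
        ∀ w ∈ F, ‖Mor.e μ (α w) - Mor.e ν (β w)‖ ≤ ε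

/-- near amalgamation in the category -/
def NearAmalg : Prop :=
  ∀ (X Y Z : FG) (f : X ⟶ Y) (g : X ⟶ Z) (ε : ℝ), 0 < ε →
    ∃ (D : FG) (f' : Y ⟶ D) (g' : Z ⟶ D), Near ε (f ≫ f') (g ≫ g')

/-- TASK NAOBJ.  Apply TaskNA with `A = X.T`, `W = (X.T → ℝ)`, `act = tr`, `α = f.e`, `β = g.e`, `δ = 0`,
`F = {0} ∪ {Pi.single x 1}`, `w₀ = 0` and `ε' = ε / (2 * card + 1)`; an affine map which is `ε'`-small at `0` and at
the basis vectors is at most `ε' + 2 * ε' * card * ‖v‖` at `v`. -/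
def TaskNAOBJ : Prop := TaskNA → NearAmalg

/-- TASK CHAIN (abstract bookkeeping).  Build by recursion states: an object `X_s`, together with
`past : ℕ → Σ Z, (Z ⟶ X_s)`; at stage `s = encode (n, j, l)` (`Nat.unpair` twice, `n ≤ s`) amalgamate `past n : D n ⟶ X_s`
and `(R (D n) j).2` with `ε = 1 / (l + 1)` to get `X_{s+1}`, and update `past` (`past n ≫ f` for `n ≤ s`, `past (s+1) = 𝟙`).
Then `past n` at stage `s` is `ch s (h : n ≤ s)`. -/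
def TaskCHAIN : Prop :=
  ∀ (K : Type 1) [Category.{0} K] (near : ∀ {X Y : K}, ℝ → (X ⟶ Y) → (X ⟶ Y) → Prop) (X₀ : K)
    (R : ∀ X : K, ℕ → Σ Y : K, (X ⟶ Y)),
    (∀ {X Y : K} (f g : X ⟶ Y) (ε ε' : ℝ), ε ≤ ε' → near ε f g → near ε' f g) →
    (∀ {X Y Z : K} (f : X ⟶ Y) (g : X ⟶ Z) (ε : ℝ), 0 < ε →
      ∃ (W : K) (f' : Y ⟶ W) (g' : Z ⟶ W), near ε (f ≫ f') (g ≫ g')) →
    ∃ (D : ℕ → K) (s : ∀ n, D n ⟶ D (n + 1)), D 0 = X₀ ∧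
      ∀ (n j : ℕ) (ε : ℝ), 0 < ε → ∃ (m : ℕ) (h : n ≤ m) (g' : (R (D n) j).1 ⟶ D m),
        near ε (ch s h) ((R (D n) j).2 ≫ g')

/-- TASK DENSE.  Every finite group is isomorphic to one on `Fin k` (finitely many group structures for each `k`), an
isomorphism gives a morphism `κ` (with `e v = v ∘ (inverse)`).  For fixed `X, Y` the morphisms form a separable set: a
morphism is determined by `i` (finitely many) and by the values of `e` at `0` and at the basis vectors `Pi.single x 1`, and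
closeness `ε'` of these values gives `Near (ε' * (2 * card + 1))`; a subset of a separable metric space has a
countable dense subset. -/
def TaskDENSE : Prop :=
  ∀ X : FG, ∃ R : ℕ → Σ Y : FG, (X ⟶ Y), ∀ (Y : FG) (ν : X ⟶ Y) (ε : ℝ), 0 < ε →
    ∃ (j : ℕ) (κ : Y ⟶ (R j).1), Near ε (R j).2 (ν ≫ κ)

/-- TASK LIMG.  The direct limit (`DirectLimit`, Mathlib.Algebra.Colimit.DirectLimit) of the groups `(D n).T` along
`Mor.i (ch s h)`. -/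
def TaskLIMG : Prop :=
  ∀ (D : ℕ → FG) (s : ∀ n, D n ⟶ D (n + 1)), ∃ (G : Type) (_ : Group G) (j : ∀ n, (D n).T →* G),
    (∀ n, Function.Injective (j n)) ∧ (∀ n d, j (n + 1) (Mor.i (s n) d) = j n d) ∧
    ∀ g, ∃ n d, j n d = g

/-- TASK LIMX.  First `j m (Mor.i (ch s h) d) = j n d` for `n ≤ m` (induction, `ch_succ`).  For `v : (D n).T → ℝ` define
`Ψ n v : G → ℝ` by `Ψ n v g = Mor.e (ch s h) v d` for any `h : n ≤ m` and `d` with `j m d = g` (independent of the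
choice by `Mor.res`, `Mor.inj` and `ch_comp`).  `Ψ n` is affine, `|Ψ n v g - Ψ n w g| ≤ ‖v - w‖`, `Ψ n v (j n d) = v d`,
`Ψ (n+1) (Mor.e (s n) v) = Ψ n v`, `Ψ n (tr d v) g = Ψ n v ((j n d)⁻¹ * g)` (`Mor.equi`).
Let `f₀ = Ψ 0 0`.  The set of all bounded functions `Ψ n v - f₀` is a linear subspace `X₀` (increasing union of finite
dimensional subspaces) of the Banach space of bounded functions on `G` (`BoundedContinuousFunction` on `G` with the discrete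
topology, or `lp (fun _ : G => ℝ) ⊤`).  `X` is its closure; it is separable and complete.  `Φ n v = Ψ n v - f₀`.
`act g ξ = (g-translate of ξ) + (g-translate of f₀ - f₀)`. -/
def TaskLIMX : Prop :=
  ∀ (D : ℕ → FG) (s : ∀ n, D n ⟶ D (n + 1)) (G : Type) [Group G] (j : ∀ n, (D n).T →* G),
    (∀ n, Function.Injective (j n)) → (∀ n d, j (n + 1) (Mor.i (s n) d) = j n d) →
    (∀ g, ∃ n d, j n d = g) →
    ∃ (X : Type) (_ : NormedAddCommGroup X) (_ : NormedSpace ℝ X) (_ : CompleteSpace X)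
      (_ : SeparableSpace X) (act : G →* (X ≃ᵢ X)) (Φ : ∀ n, ((D n).T → ℝ) →ᵃ[ℝ] X),
      (∀ n v w, ‖Φ n v - Φ n w‖ = ‖v - w‖) ∧ (∀ n v, Φ (n + 1) (Mor.e (s n) v) = Φ n v) ∧
      ∀ n d v, Φ n (tr d v) = act (j n d) (Φ n v)

/-- `(ι, φ)` embeds `(H₁, Y₁)` in `X` up to `δ` -/
def Emb {H Y : Type} [Group H] [NormedAddCommGroup Y] [NormedSpace ℝ Y]
    (act : H →* (Y ≃ᵃⁱ[ℝ] Y)) (H₁ : Subgroup H) (Y₁ : Submodule ℝ Y) (δ : ℝ) (X : FG)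
    (ι : H₁ →* X.T) (φ : Y →ᵃ[ℝ] (X.T → ℝ)) : Prop :=
  Function.Injective ι ∧ (∀ y, ‖φ.linear y‖ ≤ ‖y‖) ∧
    (∀ (h : H₁) (y : Y), φ (act h y) = tr (ι h) (φ y)) ∧ ∀ y ∈ Y₁, (1 - δ) * ‖y‖ ≤ ‖φ.linear y‖

/-- the step property: embeddings up to `δ` can be extended along a generic sequence -/
def StepProp {D : ℕ → FG} (s : ∀ n, D n ⟶ D (n + 1)) : Prop :=
    ∀ (H Y : Type) [Group H] [NormedAddCommGroup Y] [NormedSpace ℝ Y] (act : H →* (Y ≃ᵃⁱ[ℝ] Y))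
      (H₁ H₂ : Subgroup H) (hH : H₁ ≤ H₂), Finite H₂ → ∀ (Y₁ Y₂ : Submodule ℝ Y),
      FiniteDimensional ℝ Y₁ → FiniteDimensional ℝ Y₂ → Y₁ ≤ Y₂ →
      (∀ h ∈ H₁, ∀ y ∈ Y₁, act h y ∈ Y₁) →
      ∀ (n : ℕ) (δ : ℝ), 0 ≤ δ → δ < 1 → ∀ (ι : H₁ →* (D n).T) (φ : Y →ᵃ[ℝ] ((D n).T → ℝ)),
      Emb act H₁ Y₁ δ (D n) ι φ →
      ∀ F : Set Y, F.Finite → F ⊆ Y₁ → (∀ h ∈ H₁, ∀ y ∈ F, act h y ∈ F) → (0 : Y) ∈ F →
      ∀ ε > (0 : ℝ), (∀ y ∈ F, δ * ‖y‖ < ε) → ∀ δ' : ℝ, 0 < δ' → δ' < 1 →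
      ∃ (m : ℕ) (h : n ≤ m) (ι' : H₂ →* (D m).T) (φ' : Y →ᵃ[ℝ] ((D m).T → ℝ)),
        Emb act H₂ Y₂ δ' (D m) ι' φ' ∧
        (∀ x : H₁, ι' ⟨x, hH x.2⟩ = Mor.i (ch s h) (ι x)) ∧
        ∀ y ∈ F, ‖φ' y - Mor.e (ch s h) (φ y)‖ ≤ 2 * ε

/-- TASK STEPU.  Choose `0 < δ₁ ≤ δ'` with `δ₁ * ‖y‖ < ε` on `F`; finitely many functionals of norm `≤ 1` on `Y` which are
`(1 - δ₁)`-norming on the finite dimensional space `Y₂` (compactness of the unit sphere), indexed by a finite group `K`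
(e.g. `Multiplicative (ZMod N)`) except for the index `1`: `P 1 y = φ y 1`, `P k` (`k ≠ 1`) the functionals.  Let `B = H₂ × K` (as `FG`),
`ψ : Y →ᵃ[ℝ] (B → ℝ)`, `ψ y (h, k) = P k (act h⁻¹ y)`.  Then `ψ (act h y) = tr (h, 1) (ψ y)`, `‖ψ.linear y‖ ≤ ‖y‖`,
`(1 - δ₁) * ‖y‖ ≤ ‖ψ.linear y‖` on `Y₂`, `ψ y 1 = φ y 1`.  Apply TaskNA with `A = H₁`, `W = Y₁`, `α = ψ` restricted to `Y₁`,
`β = φ` restricted to `Y₁`, `max δ δ₁`, `w₀ = 0`, to get `E`, `μ : B ⟶ E`, `ν : D n ⟶ E`, then `Fr` for `ν` with a small `ε₁` (such that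
`ε₁ * (1 + ‖φ y‖) ≤ ε` on `F`) to get `κ : E ⟶ D m`.  `ι' h = κ.i (μ.i (h, 1))`, `φ' = κ.e ∘ μ.e ∘ ψ` (`Mor.dist_eq`). -/
def TaskSTEPU : Prop :=
  TaskNA → ∀ (D : ℕ → FG) (s : ∀ n, D n ⟶ D (n + 1)), Fr s → StepProp s

/-- TASK REC.  Recursion: `N 0 = 0`, `ι 0 = 1`, `φ 0 = 0`, `δ 0 = 1/2`; at step `k` apply `StepProp` with `H₁ = Hs k`, `H₂ = Hs (k+1)`,
`Y₁ = span (Fs k)`, `Y₂ = span (Fs (k+1))`, `F = Fs k`, `ε = (1/2)^k` and `δ' = δ (k+1)`, which is chosen (depending only on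
`Fs (k+1)`) with `0 < δ (k+1) ≤ (1/2)^(k+2)` and `δ (k+1) * ‖y‖ < (1/2)^(k+1)` on `Fs (k+1)`. -/
def TaskREC : Prop :=
  ∀ (D : ℕ → FG) (s : ∀ n, D n ⟶ D (n + 1)), StepProp s →
    ∀ (H Y : Type) [Group H] [NormedAddCommGroup Y] [NormedSpace ℝ Y] (act : H →* (Y ≃ᵃⁱ[ℝ] Y))
      (Hs : ℕ → Subgroup H) (Fs : ℕ → Set Y) (hmono : ∀ n, Hs n ≤ Hs (n + 1)),
      (∀ n, Finite (Hs n)) → Hs 0 = ⊥ → (∀ n, (Fs n).Finite) → (∀ n, Fs n ⊆ Fs (n + 1)) →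
      (∀ n, (0 : Y) ∈ Fs n) → Fs 0 = {0} → (∀ n, ∀ h ∈ Hs n, ∀ y ∈ Fs n, act h y ∈ Fs n) →
      (∀ n, ∀ h ∈ Hs n, ∀ y ∈ Submodule.span ℝ (Fs n), act h y ∈ Submodule.span ℝ (Fs n)) →
      ∃ (N : ℕ → ℕ) (ι : ∀ k, Hs k →* (D (N k)).T) (φ : ∀ k, Y →ᵃ[ℝ] ((D (N k)).T → ℝ))
        (δ : ℕ → ℝ), Tendsto δ atTop (𝓝 0) ∧
        (∀ k, Emb act (Hs k) (Submodule.span ℝ (Fs k)) (δ k) (D (N k)) (ι k) (φ k)) ∧
        ∀ k, ∃ h : N k ≤ N (k + 1),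
          (∀ x : Hs k, ι (k + 1) ⟨x, hmono k x.2⟩ = Mor.i (ch s h) (ι k x)) ∧
          ∀ y ∈ Fs k, ‖φ (k + 1) y - Mor.e (ch s h) (φ k y)‖ ≤ 2 * (1 / 2) ^ k

/-- TASK LIMIT.  `ι' h = ι k h` for `h ∈ Hs k` (independent of `k`).  `φ' y = lim φ k y`: on `Fs k` the sequence is Cauchy (summable
differences), and the maps `φ k` are 1-Lipschitz, so it is Cauchy for all `y` by density; the limit is affine and
isometric (on the dense set `⋃ Fs k`, as `y - z ∈ span (Fs k)` and `(1 - δ k) ‖y - z‖ ≤ ‖φ k y - φ k z‖ ≤ ‖y - z‖`). -/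
def TaskLIMIT : Prop :=
  ∀ (H Y G X : Type) [Group H] [NormedAddCommGroup Y] [NormedSpace ℝ Y] [Group G]
    [NormedAddCommGroup X] [NormedSpace ℝ X] [CompleteSpace X] (act : H →* (Y ≃ᵃⁱ[ℝ] Y))
    (actX : G →* (X ≃ᵢ X)) (Hs : ℕ → Subgroup H) (Fs : ℕ → Set Y)
    (hmono : ∀ n, Hs n ≤ Hs (n + 1)), (∀ h, ∃ n, h ∈ Hs n) → (∀ n, Fs n ⊆ Fs (n + 1)) →
    Dense (⋃ n, Fs n) →
    ∀ (ι : ∀ k, Hs k →* G) (φ : ℕ → (Y →ᵃ[ℝ] X)) (δ : ℕ → ℝ), Tendsto δ atTop (𝓝 0) →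
    (∀ k, Function.Injective (ι k)) → (∀ k y, ‖(φ k).linear y‖ ≤ ‖y‖) →
    (∀ (k : ℕ) (h : Hs k) (y : Y), φ k (act h y) = actX (ι k h) (φ k y)) →
    (∀ k, ∀ y ∈ Submodule.span ℝ (Fs k), (1 - δ k) * ‖y‖ ≤ ‖(φ k).linear y‖) →
    (∀ (k : ℕ) (x : Hs k), ι (k + 1) ⟨x, hmono k x.2⟩ = ι k x) →
    (∀ k, ∀ y ∈ Fs k, ‖φ (k + 1) y - φ k y‖ ≤ 2 * (1 / 2) ^ k) →
    ∃ (ι' : H →* G) (φ' : Y →ᵃⁱ[ℝ] X), Function.Injective ι' ∧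
      ∀ h y, φ' (act h y) = actX (ι' h) (φ' y)

/-- TASK EXH.  `H` is the union of an increasing sequence of finite subgroups `Hs n` with `Hs 0 = ⊥` (closures of initial
segments of an enumeration); with a dense sequence `y n`, `Fs n` is the set of all `act h y`, `h ∈ Hs n`,
`y ∈ {0, y 0, …, y (n-1)}`.  The span is invariant: `act h (Σ c_i s_i) = Σ c_i (act h s_i) + (1 - Σ c_i) (act h 0)`. -/
def TaskEXH : Prop :=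
  ∀ (H Y : Type) [Group H] [Countable H] [NormedAddCommGroup Y] [NormedSpace ℝ Y]
    [SeparableSpace Y] (act : H →* (Y ≃ᵃⁱ[ℝ] Y)),
    (∀ S : Set H, S.Finite → Finite (Subgroup.closure S)) →
    ∃ (Hs : ℕ → Subgroup H) (Fs : ℕ → Set Y), (∀ n, Finite (Hs n)) ∧ (∀ n, Hs n ≤ Hs (n + 1)) ∧
      (∀ h, ∃ n, h ∈ Hs n) ∧ Hs 0 = ⊥ ∧ (∀ n, (Fs n).Finite) ∧ (∀ n, Fs n ⊆ Fs (n + 1)) ∧
      (∀ n, (0 : Y) ∈ Fs n) ∧ Fs 0 = {0} ∧ (∀ n, ∀ h ∈ Hs n, ∀ y ∈ Fs n, act h y ∈ Fs n) ∧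
      (∀ n, ∀ h ∈ Hs n, ∀ y ∈ Submodule.span ℝ (Fs n), act h y ∈ Submodule.span ℝ (Fs n)) ∧
      Dense (⋃ n, Fs n)

end R658.UA
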