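import Mathlib
import Pool.Agent.R658.UA.Stmts

set_option autoImplicit false

namespace R658.UA

open CategoryTheory

theorem taskCHAIN : TaskCHAIN := by
  intro K _ near X₀ R hmono hamal
  classical
  have step : ∀ (q : ℕ) (st : Σ X : K, (ℕ → Σ Z : K, (Z ⟶ X))),
      ∃ (W : K) (f' : st.1 ⟶ W), ∃ g' : (R (st.2 q.unpair.1.unpair.1).1 q.unpair.1.unpair.2).1 ⟶ W,
        near (1 / ((q.unpair.2 : ℝ) + 1)) ((st.2 q.unpair.1.unpair.1).2 ≫ f')
          ((R (st.2 q.unpair.1.unpair.1).1 q.unpair.1.unpair.2).2 ≫ g') :=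
    fun q st => hamal _ _ _ (by positivity)
  choose W f' hf' using step
  let next : ℕ → (Σ X : K, (ℕ → Σ Z : K, (Z ⟶ X))) → (Σ X : K, (ℕ → Σ Z : K, (Z ⟶ X))) :=
    fun q st => ⟨W q st, fun k => if k ≤ q then ⟨(st.2 k).1, (st.2 k).2 ≫ f' q st⟩
      else ⟨W q st, 𝟙 _⟩⟩
  let st : ℕ → (Σ X : K, (ℕ → Σ Z : K, (Z ⟶ X))) :=
    fun n => Nat.rec ⟨X₀, fun _ => ⟨X₀, 𝟙 X₀⟩⟩ next n
  let D : ℕ → K := fun n => (st n).1
  let s : ∀ n, D n ⟶ D (n + 1) := fun n => f' n (st n)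
  have hpast : ∀ (n m : ℕ) (h : n ≤ m),
      (st m).2 n = (⟨D n, ch s h⟩ : Σ Z : K, (Z ⟶ (st m).1)) := by
    intro n m h
    induction m, h using Nat.le_induction with
    | base =>
      rw [ch_self]
      cases n with
      | zero => rfl
      | succ k =>
        show (if k + 1 ≤ k then _ else _) = _
        rw [if_neg (by omega)]
    | succ m hm ih =>
      have h1 : (st (m + 1)).2 n = (⟨((st m).2 n).1, ((st m).2 n).2 ≫ f' m (st m)⟩ :
          Σ Z : K, (Z ⟶ (st (m + 1)).1)) := by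
        show (if n ≤ m then _ else _) = _
        rw [if_pos hm]
      rw [h1, ih, ch_succ s hm]
  refine ⟨D, s, rfl, ?_⟩
  intro n j ε hε
  obtain ⟨l, hl⟩ := exists_nat_one_div_lt hε
  set m : ℕ := Nat.pair (Nat.pair n j) l with hm
  have hnm : n ≤ m := (Nat.left_le_pair n j).trans (Nat.left_le_pair _ l)
  have key := hf' m (st m)
  have e1 : m.unpair.1.unpair.1 = n := by simp [hm]
  have e2 : m.unpair.1.unpair.2 = j := by simp [hm]
  have e3 : m.unpair.2 = l := by simp [hm]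
  rw [e1, e2, e3, hpast n m hnm] at key
  obtain ⟨g', hg'⟩ := key
  refine ⟨m + 1, hnm.trans (Nat.le_succ m), g', ?_⟩
  rw [ch_succ s hnm]
  exact hmono _ _ _ _ hl.le hg'

end R658.UA
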