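import Mathlib
import Pool.Agent.R658.UA.Stmts

/-! # MP_a2e83c_al: TASK STEP (helper179) -/

set_option autoImplicit false

namespace R658.UA

namespace StepAux

/-- representatives of the orbits, with a prescribed representative -/
theorem exists_rep {A X : Type} [Group A] (τ : A →* Equiv.Perm X) (xs : X) :
    ∃ (rep : X → X) (al : X → A), (∀ x, τ (al x) (rep x) = x) ∧ (∀ a x, rep (τ a x) = rep x) ∧
      rep xs = xs := by
  classical
  let orb : X → Set X := fun x => {y | ∃ a, τ a x = y}
  let chs : Set X → X := fun O => if xs ∈ O then xs else if h : O.Nonempty then h.some else xs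
  have hch : ∀ O : Set X, O.Nonempty → chs O ∈ O := by
    intro O hO
    by_cases h : xs ∈ O
    · simp only [chs, h, if_true]
    · simp only [chs, h, if_false, hO, dif_pos]
      exact hO.some_mem
  have hself : ∀ x, x ∈ orb x := fun x => ⟨1, by simp⟩
  have horb : ∀ a x, orb (τ a x) = orb x := by
    intro a x
    ext y
    constructor
    · rintro ⟨b, hb⟩
      exact ⟨b * a, by rw [map_mul]; exact hb⟩
    · rintro ⟨b, hb⟩
      refine ⟨b * a⁻¹, ?_⟩
      rw [← Equiv.Perm.mul_apply, ← map_mul, inv_mul_cancel_right]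
      exact hb
  have hex : ∀ x, ∃ a, τ a (chs (orb x)) = x := by
    intro x
    obtain ⟨b, hb⟩ := hch (orb x) ⟨x, hself x⟩
    refine ⟨b⁻¹, ?_⟩
    rw [← hb, ← Equiv.Perm.mul_apply, ← map_mul]
    simp
  choose al hal using hex
  refine ⟨fun x => chs (orb x), al, hal, ?_, ?_⟩
  · intro a x
    change chs (orb (τ a x)) = chs (orb x)
    rw [horb]
  · change chs (orb xs) = xs
    simp only [chs, hself xs, if_true]

/-- the action on a disjoint union -/
def sumAct {C S R : Type} [Group C] (σ : C →* Equiv.Perm S) : C →* Equiv.Perm (S ⊕ (R × C)) where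
  toFun c := Equiv.sumCongr (σ c) (Equiv.prodCongr (Equiv.refl R) (Equiv.mulLeft c))
  map_one' := by
    ext y
    rcases y with x | ⟨r, c⟩ <;> simp
  map_mul' c c' := by
    ext y
    rcases y with x | ⟨r, c''⟩ <;> simp [mul_assoc]

theorem sumAct_inl {C S R : Type} [Group C] (σ : C →* Equiv.Perm S) (c : C) (x : S) :
    sumAct (R := R) σ c (Sum.inl x) = Sum.inl (σ c x) := rfl

theorem sumAct_inr {C S R : Type} [Group C] (σ : C →* Equiv.Perm S) (c : C) (r : R) (c' : C) :
    sumAct (R := R) σ c (Sum.inr (r, c')) = Sum.inr (r, c * c') := rfl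

/-- transport of an action -/
def trans {B X Y : Type} [Group B] (ρ : B →* Equiv.Perm X) (e : X ≃ Y) : B →* Equiv.Perm Y where
  toFun b := (e.symm.trans (ρ b)).trans e
  map_one' := by
    ext y
    simp
  map_mul' b b' := by
    ext y
    simp

theorem trans_apply {B X Y : Type} [Group B] (ρ : B →* Equiv.Perm X) (e : X ≃ Y) (b : B) (y : Y) :
    trans ρ e b y = e (ρ b (e.symm y)) := rfl

end StepAux

open StepAux

theorem taskSTEP : TaskSTEP := by
  intro A B C _ _ _ _ _ W _ _ iB iC α β F ε act hiB hiC hα hβ hF s q' xs hlip hnear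
  classical
  haveI := s.fin
  obtain ⟨rep, al, hal, hrep, hxs⟩ := exists_rep (s.ρ.comp iB) xs
  have hal' : ∀ x, s.ρ (iB (al x)) (rep x) = x := hal
  have hrep' : ∀ a x, rep (s.ρ (iB a) x) = rep x := hrep
  have hfree : ∀ a a' x, s.ρ (iB a) x = s.ρ (iB a') x → a = a' := by
    intro a a' x h
    have h1 : s.ρ (iB (a'⁻¹ * a)) x = x := by
      rw [map_mul, map_mul, Equiv.Perm.mul_apply, h, ← Equiv.Perm.mul_apply, ← map_mul,
        ← map_mul]
      simp
    have h2 := s.freeρ _ _ h1
    have h3 : a'⁻¹ * a = 1 := hiB (by rw [h2, map_one])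
    exact (inv_mul_eq_one.1 h3).symm
  have hS : ∀ a x, x ∈ s.S → s.ρ (iB a) x ∈ s.S := by
    intro a x hx
    have := s.agree a ⟨x, hx⟩
    rw [this]
    exact (s.σ (iC a) ⟨x, hx⟩).2
  have hN : ∀ a x, x ∉ s.S → s.ρ (iB a) x ∉ s.S := by
    intro a x hx h
    apply hx
    have := hS a⁻¹ _ h
    rw [← Equiv.Perm.mul_apply, ← map_mul, ← map_mul] at this
    simpa using this
  have hrr : ∀ x, rep (rep x) = rep x := by
    intro x
    have := hrep' (al x) (rep x)
    rw [hal'] at this
    exact this.symm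
  have hrN : ∀ x, x ∉ s.S → rep x ∉ s.S := by
    intro x hx h
    apply hx
    have := hS (al x) _ h
    rwa [hal'] at this
  let R : Type := {r : s.X // r ∉ s.S ∧ rep r = r}
  let Y : Type := s.S ⊕ (R × C)
  let j : s.X → Y := fun x => if h : x ∈ s.S then Sum.inl ⟨x, h⟩ else
    Sum.inr (⟨rep x, hrN x h, hrr x⟩, iC (al x))
  have jS : ∀ (x : s.X) (h : x ∈ s.S), j x = Sum.inl ⟨x, h⟩ := by
    intro x h
    simp only [j, h, dif_pos]
  have jN : ∀ (r : R) (a : A), j (s.ρ (iB a) r.1) = Sum.inr (r, iC a) := by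
    intro r a
    have h1 : s.ρ (iB a) r.1 ∉ s.S := hN a _ r.2.1
    have h2 : rep (s.ρ (iB a) r.1) = r.1 := by rw [hrep', r.2.2]
    have h3 : al (s.ρ (iB a) r.1) = a := by
      have := hal' (s.ρ (iB a) r.1)
      rw [h2] at this
      exact hfree _ _ _ this
    simp only [j, h1, dif_neg, not_false_iff]
    congr 1
    refine Prod.ext (Subtype.ext h2) ?_
    simp only [h3]
  have hdec : ∀ x, x ∉ s.S → ∃ (r : R) (a : A), x = s.ρ (iB a) r.1 := by
    intro x hx
    exact ⟨⟨rep x, hrN x hx, hrr x⟩, al x, (hal' x).symm⟩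
  have jinj : Function.Injective j := by
    intro x y hxy
    by_cases hx : x ∈ s.S
    · by_cases hy : y ∈ s.S
      · rw [jS x hx, jS y hy] at hxy
        exact congrArg Subtype.val (Sum.inl.inj hxy)
      · obtain ⟨r, a, rfl⟩ := hdec y hy
        rw [jS x hx, jN] at hxy
        exact absurd hxy (by simp)
    · obtain ⟨r, a, rfl⟩ := hdec x hx
      by_cases hy : y ∈ s.S
      · rw [jS y hy, jN] at hxy
        exact absurd hxy (by simp)
      · obtain ⟨r', a', rfl⟩ := hdec y hy
        rw [jN, jN] at hxy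
        have h1 := Sum.inr.inj hxy
        have h2 : r = r' := congrArg Prod.fst h1
        have h3 : iC a = iC a' := congrArg Prod.snd h1
        rw [h2, hiC h3]
  let e : s.X ≃ Set.range j := Equiv.ofInjective j jinj
  have he : ∀ x, (e x : Y) = j x := fun x => rfl
  have hes : ∀ (x : s.X) (h : j x ∈ Set.range j), e.symm ⟨j x, h⟩ = x := by
    intro x h
    rw [Equiv.symm_apply_eq]
    exact Subtype.ext rfl
  let P : Y → ((C → ℝ) →ᵃ[ℝ] ℝ) := fun y => Sum.elim (fun x => s.q x)
    (fun z => (q' z.1.1).comp (trL z.2⁻¹).toAffineMap) y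
  have hPl : ∀ x, P (Sum.inl x) = s.q x := fun x => rfl
  have hPr : ∀ (r : R) (c : C) (v : C → ℝ), P (Sum.inr (r, c)) v = q' r.1 (tr c⁻¹ v) :=
    fun r c v => rfl
  have hagree : ∀ (a : A) (x : s.X), sumAct (R := R) s.σ (iC a) (j x) = j (s.ρ (iB a) x) := by
    intro a x
    by_cases hx : x ∈ s.S
    · rw [jS x hx, jS _ (hS a x hx), sumAct_inl]
      congr 1
      exact Subtype.ext (s.agree a ⟨x, hx⟩).symm
    · obtain ⟨r, a', rfl⟩ := hdec x hx
      rw [jN, sumAct_inr, ← map_mul, ← Equiv.Perm.mul_apply, ← map_mul, ← map_mul, jN]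
  let t : Sys iC iB β α F ε :=
    { X := Y
      fin := Fintype.ofFinite _
      ρ := sumAct s.σ
      S := Set.range j
      σ := trans s.ρ e
      p := P
      q := fun y => s.p (e.symm y)
      freeρ := by
        intro c y h
        rcases y with x | ⟨r, c'⟩
        · rw [sumAct_inl] at h
          exact s.freeσ c x (Sum.inl.inj h)
        · rw [sumAct_inr] at h
          have h1 := congrArg Prod.snd (Sum.inr.inj h)
          exact mul_eq_right.1 h1
      freeσ := by
        intro b y h
        rw [trans_apply] at h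
        have h1 : s.ρ b (e.symm y) = e.symm y := by
          rw [Equiv.eq_symm_apply]; exact h
        exact s.freeρ b _ h1
      agree := by
        intro a y
        obtain ⟨y, x, rfl⟩ := y
        rw [trans_apply, hes, he]
        exact hagree a x
      lipp := by
        intro y v
        rcases y with x | ⟨r, c⟩
        · exact s.lipq x v
        · refine (hlip r.1 (tr c⁻¹ v)).trans ?_
          rw [norm_tr]
      lipq := fun y v => s.lipp _ v
      eqp := by
        intro c y v
        rcases y with x | ⟨r, c'⟩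
        · exact s.eqq c x v
        · rw [sumAct_inr, hPr, hPr, ← tr_mul]
          congr 2
          simp
      eqq := by
        intro b y v
        rw [trans_apply, Equiv.symm_apply_apply]
        exact s.eqp b _ v
      near := by
        intro y w hw
        obtain ⟨y, x, rfl⟩ := y
        rw [hes]
        change |P (j x) (β w) - s.p x (α w)| ≤ ε
        by_cases hx : x ∈ s.S
        · rw [jS x hx, hPl, abs_sub_comm]
          exact s.near ⟨x, hx⟩ w hw
        · obtain ⟨r, a, rfl⟩ := hdec x hx
          rw [jN, hPr, abs_sub_comm]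
          have h1 : tr (iC a)⁻¹ (β w) = β (act a⁻¹ w) := by rw [hβ, map_inv]
          have h2 : s.p (s.ρ (iB a) r.1) (α w) = s.p r.1 (α (act a⁻¹ w)) := by
            rw [hα, map_inv]
            conv_lhs => rw [← tr_tr_inv (iB a) (α w)]
            rw [s.eqp]
          rw [h1, h2]
          exact hnear r.1 r.2.1 _ (hF a⁻¹ w hw) }
  refine ⟨t, j, jinj, ?_, ?_, ?_, ?_, ?_⟩
  · intro y
    exact Iff.rfl
  · intro x
    change P (j x) = s.q x
    rw [jS x.1 x.2]
    rfl
  · intro x h
    change s.p (e.symm ⟨j x, h⟩) = s.p x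
    rw [hes]
  · intro hx
    change P (j xs) = q' xs
    have h1 : j xs = Sum.inr (⟨xs, hx, hxs⟩, iC 1) := by
      have := jN ⟨xs, hx, hxs⟩ 1
      simpa using this
    rw [h1]
    refine AffineMap.ext fun v => ?_
    rw [hPr, map_one, inv_one, tr_one]
  · intro y hy
    rcases y with x | ⟨r, c⟩
    · exact absurd ⟨x.1, jS x.1 x.2⟩ hy
    · exact ⟨r.1, r.2.1, c, fun v => rfl⟩

end R658.UA
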