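import Mathlib
import Pool.Agent.R658.UA.TSTEP

/-! # MP_a2e83c_al: TASK CLOSE (helper179) -/

set_option autoImplicit false

namespace R658.UA

namespace CloseAux

open StepAux

/-- action on the first coordinate -/
def fstAct {B X K : Type} [Group B] (ρ : B →* Equiv.Perm X) : B →* Equiv.Perm (X × K) where
  toFun b := Equiv.prodCongr (ρ b) (Equiv.refl K)
  map_one' := by
    ext y <;> simp
  map_mul' b b' := by
    ext y <;> simp

theorem fstAct_apply {B X K : Type} [Group B] (ρ : B →* Equiv.Perm X) (b : B) (x : X) (k : K) :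
    fstAct (K := K) ρ b (x, k) = (ρ b x, k) := rfl

end CloseAux

open StepAux CloseAux

theorem taskCLOSE : TaskCLOSE := by
  intro A B C _ _ _ _ _ W _ _ iB iC α β F ε hiB hiC s hsmall
  classical
  haveI := s.fin
  by_cases hne : Nonempty s.X
  swap
  · -- empty case
    haveI : IsEmpty s.X := not_nonempty_iff.1 hne
    refine ⟨Empty, inferInstance, 1, 1, fun x => x.elim, fun x => x.elim,
      fun x => (IsEmpty.false x.1).elim, fun b x => x.elim, fun c x => x.elim, fun a => rfl,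
      fun x => x.elim, fun x => x.elim, fun b x => x.elim, fun c x => x.elim, fun x => x.elim,
      fun x => (IsEmpty.false x.1).elim, fun x => (IsEmpty.false x.1).elim⟩
  obtain ⟨xs⟩ := hne
  obtain ⟨rep, al, hal, hrep, -⟩ := exists_rep (s.ρ.comp iB) xs
  have hal' : ∀ x, s.ρ (iB (al x)) (rep x) = x := hal
  have hrep' : ∀ a x, rep (s.ρ (iB a) x) = rep x := hrep
  have hfree : ∀ a a' x, s.ρ (iB a) x = s.ρ (iB a') x → a = a' := by
    intro a a' x h
    have h1 : s.ρ (iB (a'⁻¹ * a)) x = x := by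
      rw [map_mul, map_mul, Equiv.Perm.mul_apply, h, ← Equiv.Perm.mul_apply, ← map_mul,
        ← map_mul]
      simp
    have h2 := s.freeρ _ _ h1
    have h3 : a'⁻¹ * a = 1 := hiB (by rw [h2, map_one])
    exact (inv_mul_eq_one.1 h3).symm
  have hS : ∀ a x, x ∈ s.S → s.ρ (iB a) x ∈ s.S := by
    intro a x hx
    have := s.agree a ⟨x, hx⟩
    rw [this]
    exact (s.σ (iC a) ⟨x, hx⟩).2
  have hN : ∀ a x, x ∉ s.S → s.ρ (iB a) x ∉ s.S := by
    intro a x hx h
    apply hx
    have := hS a⁻¹ _ h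
    rw [← Equiv.Perm.mul_apply, ← map_mul, ← map_mul] at this
    simpa using this
  have hrr : ∀ x, rep (rep x) = rep x := by
    intro x
    have := hrep' (al x) (rep x)
    rw [hal'] at this
    exact this.symm
  have hrN : ∀ x, x ∉ s.S → rep x ∉ s.S := by
    intro x hx h
    apply hx
    have := hS (al x) _ h
    rwa [hal'] at this
  -- transversal of A in C
  let lm : C →* Equiv.Perm C :=
    { toFun := fun c => Equiv.mulLeft c
      map_one' := by ext; simp
      map_mul' := fun c c' => by ext; simp [mul_assoc] }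
  obtain ⟨repC, alC, halC, hrepC, -⟩ := exists_rep (lm.comp iC) 1
  have halC' : ∀ c, iC (alC c) * repC c = c := halC
  have hrepC' : ∀ a c, repC (iC a * c) = repC c := hrepC
  have hrrC : ∀ c, repC (repC c) = repC c := by
    intro c
    have := hrepC' (alC c) (repC c)
    rw [halC'] at this
    exact this.symm
  let R : Type := {r : s.X // r ∉ s.S ∧ rep r = r}
  let K : Type := {k : C // repC k = k}
  let k0 : K := ⟨repC 1, hrrC 1⟩
  have hdec : ∀ x, x ∉ s.S → ∃ (r : R) (a : A), x = s.ρ (iB a) r.1 := by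
    intro x hx
    exact ⟨⟨rep x, hrN x hx, hrr x⟩, al x, (hal' x).symm⟩
  let f : s.X × K → (s.S × K) ⊕ (R × C) := fun z => if h : z.1 ∈ s.S then Sum.inl (⟨z.1, h⟩, z.2)
    else Sum.inr (⟨rep z.1, hrN z.1 h, hrr z.1⟩, iC (al z.1) * z.2.1)
  have fS : ∀ (x : s.X) (k : K) (h : x ∈ s.S), f (x, k) = Sum.inl (⟨x, h⟩, k) := by
    intro x k h
    simp only [f, h, dif_pos]
  have fN : ∀ (r : R) (a : A) (k : K), f (s.ρ (iB a) r.1, k) = Sum.inr (r, iC a * k.1) := by
    intro r a k
    have h1 : s.ρ (iB a) r.1 ∉ s.S := hN a _ r.2.1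
    have h2 : rep (s.ρ (iB a) r.1) = r.1 := by rw [hrep', r.2.2]
    have h3 : al (s.ρ (iB a) r.1) = a := by
      have := hal' (s.ρ (iB a) r.1)
      rw [h2] at this
      exact hfree _ _ _ this
    simp only [f, h1, dif_neg, not_false_iff]
    congr 1
    refine Prod.ext (Subtype.ext h2) ?_
    simp only [h3]
  have finj : Function.Injective f := by
    rintro ⟨x, k⟩ ⟨y, l⟩ hxy
    by_cases hx : x ∈ s.S
    · by_cases hy : y ∈ s.S
      · rw [fS x k hx, fS y l hy] at hxy
        have h1 := Sum.inl.inj hxy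
        have h2 : x = y := congrArg (fun z => (z.1 : s.X)) h1
        have h3 : k = l := congrArg Prod.snd h1
        rw [h2, h3]
      · obtain ⟨r, a, rfl⟩ := hdec y hy
        rw [fS x k hx, fN] at hxy
        exact absurd hxy (by simp)
    · obtain ⟨r, a, rfl⟩ := hdec x hx
      by_cases hy : y ∈ s.S
      · rw [fS y l hy, fN] at hxy
        exact absurd hxy (by simp)
      · obtain ⟨r', a', rfl⟩ := hdec y hy
        rw [fN, fN] at hxy
        have h1 := Sum.inr.inj hxy
        have h2 : r = r' := congrArg Prod.fst h1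
        have h3 : iC a * k.1 = iC a' * l.1 := congrArg Prod.snd h1
        have h4 : k.1 = l.1 := by
          have := congrArg repC h3
          rwa [hrepC', hrepC', k.2, l.2] at this
        have h5 : a = a' := by
          rw [h4] at h3
          exact hiC (mul_right_cancel h3)
        rw [h2, h5, Subtype.ext h4]
  have fsurj : Function.Surjective f := by
    rintro (⟨x, k⟩ | ⟨r, c⟩)
    · exact ⟨(x.1, k), fS x.1 k x.2⟩
    · refine ⟨(s.ρ (iB (alC c)) r.1, ⟨repC c, hrrC c⟩), ?_⟩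
      rw [fN]
      simp only [halC']
  let e : s.X × K ≃ (s.S × K) ⊕ (R × C) := Equiv.ofBijective f ⟨finj, fsurj⟩
  have he : ∀ z, e z = f z := fun z => rfl
  let act2 : C →* Equiv.Perm ((s.S × K) ⊕ (R × C)) := sumAct (R := R) (fstAct (K := K) s.σ)
  let σT : C →* Equiv.Perm (s.X × K) := trans act2 e.symm
  have hσT : ∀ c z, e (σT c z) = act2 c (e z) := by
    intro c z
    change e (e.symm (act2 c (e.symm.symm z))) = _
    rw [Equiv.apply_symm_apply]
    rfl
  let Q : s.X × K → ((C → ℝ) →ᵃ[ℝ] ℝ) := fun z => if h : z.1 ∈ s.S then s.q ⟨z.1, h⟩ else 0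
  have QS : ∀ (x : s.X) (k : K) (h : x ∈ s.S), Q (x, k) = s.q ⟨x, h⟩ := by
    intro x k h
    simp only [Q, h, dif_pos]
  have QN : ∀ (x : s.X) (k : K), x ∉ s.S → Q (x, k) = 0 := by
    intro x k h
    simp only [Q, h, dif_neg, not_false_iff]
  have hside : ∀ z : s.X × K, z.1 ∉ s.S ↔ ∃ w, e z = Sum.inr w := by
    rintro ⟨x, k⟩
    constructor
    · intro hx
      obtain ⟨r, a, rfl⟩ := hdec x hx
      exact ⟨_, fN r a k⟩
    · rintro ⟨w, hw⟩ hx
      rw [he, fS x k hx] at hw
      exact absurd hw (by simp)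
  refine ⟨s.X × K, Fintype.ofFinite _, fstAct s.ρ, σT, fun z => s.p z.1, Q,
    fun x => (x.1, k0), ?_, ?_, ?_, ?_, ?_, ?_, ?_, ?_, ?_, ?_⟩
  · rintro b ⟨x, k⟩ h
    rw [fstAct_apply] at h
    exact s.freeρ b x (congrArg Prod.fst h)
  · intro c z h
    have h1 := hσT c z
    rw [h] at h1
    rcases hz : e z with ⟨x, k⟩ | ⟨r, c'⟩
    · rw [hz] at h1
      have h2 := Sum.inl.inj h1
      exact s.freeσ c x (congrArg Prod.fst h2).symm
    · rw [hz] at h1
      have h2 := congrArg Prod.snd (Sum.inr.inj h1)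
      exact mul_eq_right.1 h2.symm
  · intro a
    ext1 z
    apply e.injective
    rw [hσT]
    obtain ⟨x, k⟩ := z
    rw [fstAct_apply, he, he]
    by_cases hx : x ∈ s.S
    · rw [fS x k hx, fS _ k (hS a x hx)]
      change _ = Sum.inl (s.σ (iC a) ⟨x, hx⟩, k)
      congr 1
      exact Prod.ext (Subtype.ext (s.agree a ⟨x, hx⟩)) rfl
    · obtain ⟨r, a', rfl⟩ := hdec x hx
      rw [fN]
      rw [← Equiv.Perm.mul_apply, ← map_mul, ← map_mul, fN]
      change _ = Sum.inr (r, iC a * (iC a' * k.1))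
      rw [map_mul, mul_assoc]
  · intro z v
    exact s.lipp z.1 v
  · rintro ⟨x, k⟩ v
    by_cases hx : x ∈ s.S
    · rw [QS x k hx]; exact s.lipq _ v
    · rw [QN x k hx]
      simp
  · rintro b ⟨x, k⟩ v
    exact s.eqp b x v
  · rintro c ⟨x, k⟩ v
    by_cases hx : x ∈ s.S
    · have h1 : σT c (x, k) = ((s.σ c ⟨x, hx⟩ : s.X), k) := by
        apply e.injective
        rw [hσT, he, he, fS x k hx, fS _ k (s.σ c ⟨x, hx⟩).2]
        rfl
      rw [h1, QS x k hx, QS _ k (s.σ c ⟨x, hx⟩).2]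
      exact s.eqq c ⟨x, hx⟩ v
    · have h1 : (σT c (x, k)).1 ∉ s.S := by
        rw [hside, hσT]
        obtain ⟨⟨r, c'⟩, hw⟩ := (hside (x, k)).1 hx
        rw [hw]
        exact ⟨_, rfl⟩
      have h2 : Q (σT c (x, k)) = 0 := QN (σT c (x, k)).1 (σT c (x, k)).2 h1
      rw [h2, QN x k hx]
      simp
  · rintro ⟨x, k⟩ w hw
    by_cases hx : x ∈ s.S
    · rw [QS x k hx]; exact s.near ⟨x, hx⟩ w hw
    · rw [QN x k hx]
      simpa using hsmall x hx w hw
  · intro x
    rfl
  · intro x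
    exact QS x.1 k0 x.2

end R658.UA
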