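import Mathlib
import Pool.Agent.R658.UA.Stmts

/-! # MP_a2e83c_al: a countable dense family of morphisms -/

set_option autoImplicit false

namespace R658.UA

open Topology CategoryTheory TopologicalSpace Filter

namespace DENSE

/-- two affine maps on `ℝ^D` which are close at `0` and at the basis vectors are close -/
theorem close_of_basis {D : Type} [Fintype D] [DecidableEq D] {V : Type} [NormedAddCommGroup V]
    [NormedSpace ℝ V] (a b : (D → ℝ) →ᵃ[ℝ] V) (ε : ℝ) (hε : 0 < ε)
    (h0 : ‖a 0 - b 0‖ ≤ ε / (2 * Fintype.card D + 1))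
    (h1 : ∀ x : D, ‖a (Pi.single x 1) - b (Pi.single x 1)‖ ≤ ε / (2 * Fintype.card D + 1))
    (v : D → ℝ) : ‖a v - b v‖ ≤ ε * (1 + ‖v‖) := by
  have hlin : ∀ (c : (D → ℝ) →ᵃ[ℝ] V) (w : D → ℝ), c w = c.linear w + c 0 := by
    intro c w
    have := c.map_vadd 0 w
    simpa using this
  have hsum : ∀ (l : (D → ℝ) →ₗ[ℝ] V), l v = ∑ x, v x • l (Pi.single x 1) := by
    intro l
    conv_lhs => rw [← Finset.univ_sum_single v, map_sum]
    refine Finset.sum_congr rfl fun x _ => ?_
    rw [← map_smul]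
    congr 1
    rw [← Pi.single_smul]
    simp
  have key : a v - b v = ∑ x, v x • ((a (Pi.single x 1) - b (Pi.single x 1)) - (a 0 - b 0))
      + (a 0 - b 0) := by
    have e1 : ∀ (c : (D → ℝ) →ᵃ[ℝ] V) (x : D), c.linear (Pi.single x 1) = c (Pi.single x 1) - c 0 := by
      intro c x
      rw [hlin c (Pi.single x 1)]; simp
    rw [hlin a v, hlin b v, hsum a.linear, hsum b.linear]
    simp only [e1]
    rw [add_sub_add_comm, ← Finset.sum_sub_distrib]
    congr 1
    refine Finset.sum_congr rfl fun x _ => ?_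
    rw [← smul_sub]
    congr 1
    abel
  set ε' := ε / (2 * Fintype.card D + 1) with hε'
  have hN : (0 : ℝ) < 2 * Fintype.card D + 1 := by positivity
  have hε'0 : 0 < ε' := by positivity
  have hsumle : ‖∑ x, v x • ((a (Pi.single x 1) - b (Pi.single x 1)) - (a 0 - b 0))‖
      ≤ Fintype.card D * (‖v‖ * (2 * ε')) := by
    refine (norm_sum_le _ _).trans ?_
    have : ∀ x ∈ (Finset.univ : Finset D),
        ‖v x • ((a (Pi.single x 1) - b (Pi.single x 1)) - (a 0 - b 0))‖ ≤ ‖v‖ * (2 * ε') := by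
      intro x _
      rw [norm_smul]
      refine mul_le_mul (norm_le_pi_norm v x) ?_ (norm_nonneg _) (norm_nonneg _)
      refine (norm_sub_le _ _).trans ?_
      have := h1 x
      linarith
    refine (Finset.sum_le_sum this).trans ?_
    simp
  rw [key]
  refine (norm_add_le _ _).trans ?_
  have hεε : ε = ε' * (2 * Fintype.card D + 1) := by
    rw [hε']; field_simp
  rw [hεε]
  have hv := norm_nonneg v
  have hc : (0 : ℝ) ≤ Fintype.card D := by positivity
  nlinarith [mul_nonneg hε'0.le hv, mul_nonneg hε'0.le hc]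

theorem finite_group (k : ℕ) : Finite (Group (Fin k)) := by
  refine Finite.of_injective (fun (G : Group (Fin k)) => (fun a b : Fin k => G.mul a b)) ?_
  intro G H h
  apply Group.ext
  ext a b
  have := congrFun (congrFun h a) b
  exact congrArg Fin.val this

/-- the group structure `G` on `Fin k` as a bundled finite group -/
def fg (k : ℕ) (G : Group (Fin k)) : FG := { T := Fin k, grp := G, fin := inferInstance }

/-- every bundled finite group has a morphism to one of the standard ones -/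
theorem exists_fg (Y : FG) : ∃ (k : ℕ) (G : Group (Fin k)), Nonempty (Y ⟶ fg k G) := by
  classical
  let e0 : Y.T ≃ Fin (Fintype.card Y.T) := Fintype.equivFin Y.T
  let G : Group (Fin (Fintype.card Y.T)) := Equiv.group e0.symm
  let Z : FG := fg (Fintype.card Y.T) G
  let e1 : Y.T ≃ Z.T := e0
  have hmul : ∀ a b : Y.T, e1 (a * b) = e1 a * e1 b := by
    intro a b
    show e0 (a * b) = e0 (e0.symm (e0 a) * e0.symm (e0 b))
    rw [Equiv.symm_apply_apply, Equiv.symm_apply_apply]
  let m : Y.T →* Z.T := MonoidHom.mk' e1 hmul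
  have hm : ∀ d, m d = e1 d := fun d => rfl
  have hsm : ∀ a b : Z.T, e1.symm (a * b) = e1.symm a * e1.symm b := by
    intro a b
    apply e1.injective
    rw [Equiv.apply_symm_apply, hmul, Equiv.apply_symm_apply, Equiv.apply_symm_apply]
  refine ⟨Fintype.card Y.T, G, ⟨{
    i := m
    e := (LinearMap.funLeft ℝ ℝ e1.symm).toAffineMap
    inj := e1.injective
    lip := ?_
    res := ?_
    equi := ?_ }⟩⟩
  · intro v
    refine (pi_norm_le_iff_of_nonneg (norm_nonneg v)).2 fun z => ?_
    exact norm_le_pi_norm v _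
  · intro v d
    show v (e1.symm (e1 d)) = v d
    rw [Equiv.symm_apply_apply]
  · intro d v
    funext z
    show v (d⁻¹ * e1.symm z) = v (e1.symm ((m d)⁻¹ * z))
    rw [hsm, ← map_inv, hm, Equiv.symm_apply_apply]

/-- the values of the affine map of a morphism at `0` and at the basis vectors -/
noncomputable def val {X Y : FG} (f : X ⟶ Y) : Option X.T → (Y.T → ℝ) := by
  classical
  exact fun o => match o with
    | none => Mor.e f 0
    | some x => Mor.e f (Pi.single x 1)

end DENSE

open DENSE in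
theorem taskDENSE : TaskDENSE := by
  classical
  intro X
  have hfin := finite_group
  -- for each target and each homomorphism a countable dense set
  have h1 : ∀ (Z : FG) (i0 : X.T →* Z.T), ∃ C : Set (X ⟶ Z), C.Countable ∧
      ∀ (f : X ⟶ Z), Mor.i f = i0 → ∀ ε > (0 : ℝ), ∃ g ∈ C, Near ε g f := by
    intro Z i0
    set J : Set (X ⟶ Z) := {f | Mor.i f = i0} with hJ
    have hsep : IsSeparable (val '' J : Set (Option X.T → (Z.T → ℝ))) :=
      IsSeparable.of_separableSpace _
    obtain ⟨t, ht, htc, hdense⟩ := hsep.exists_countable_dense_subset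
    have hch : ∀ v ∈ t, ∃ g ∈ J, val g = v := fun v hv => ht hv
    choose c hcJ hcv using hch
    have htc' : Countable t := htc.to_subtype
    refine ⟨Set.range (fun v : t => c v.1 v.2), Set.countable_range _, ?_⟩
    intro f hf ε hε
    have hN : (0 : ℝ) < 2 * Fintype.card X.T + 1 := by positivity
    have hfm : val f ∈ closure t := hdense ⟨f, hf, rfl⟩
    obtain ⟨v, hv, hvd⟩ := Metric.mem_closure_iff.1 hfm (ε / (2 * Fintype.card X.T + 1))
      (by positivity)
    refine ⟨c v hv, ⟨⟨v, hv⟩, rfl⟩, ?_, ?_⟩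
    · rw [hf]; exact hcJ v hv
    · intro w
      have hd : dist (val (c v hv)) (val f) < ε / (2 * Fintype.card X.T + 1) := by
        rw [hcv v hv, dist_comm]; exact hvd
      have hd2 : ∀ o, ‖val (c v hv) o - val f o‖ ≤ ε / (2 * Fintype.card X.T + 1) := by
        intro o
        rw [← dist_eq_norm]
        exact (dist_le_pi_dist _ _ o).trans hd.le
      exact close_of_basis (Mor.e (c v hv)) (Mor.e f) ε hε (hd2 none) (fun x => hd2 (some x)) w
  choose C hCc hC using h1
  -- the countable family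
  let S : Set (Σ Y : FG, (X ⟶ Y)) := ⋃ (k : ℕ), ⋃ (G : Group (Fin k)),
    ⋃ (i0 : X.T →* (fg k G).T), (fun f => (⟨fg k G, f⟩ : Σ Y : FG, (X ⟶ Y))) '' (C (fg k G) i0)
  have hSc : S.Countable := by
    refine Set.countable_iUnion fun k => ?_
    have := hfin k
    refine Set.countable_iUnion fun G => ?_
    have : Finite (X.T →* (fg k G).T) := by
      have : Finite (X.T → (fg k G).T) := inferInstance
      exact Finite.of_injective (fun f : X.T →* (fg k G).T => (f : X.T → (fg k G).T))
        DFunLike.coe_injective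
    exact Set.countable_iUnion fun i0 => (hCc _ _).image _
  have hS : ∀ (Y : FG) (ν : X ⟶ Y) (ε : ℝ), 0 < ε →
      ∃ r ∈ S, ∃ κ : Y ⟶ r.1, Near ε r.2 (ν ≫ κ) := by
    intro Y ν ε hε
    obtain ⟨k, G, ⟨κ⟩⟩ := exists_fg Y
    obtain ⟨g, hg, hn⟩ := hC (fg k G) (Mor.i (ν ≫ κ)) (ν ≫ κ) rfl ε hε
    refine ⟨⟨fg k G, g⟩, ?_, κ, hn⟩
    simp only [S, Set.mem_iUnion]
    exact ⟨k, G, _, g, hg, rfl⟩
  have hne : S.Nonempty := by
    obtain ⟨r, hr, _⟩ := hS X (𝟙 X) 1 one_pos
    exact ⟨r, hr⟩
  obtain ⟨R, hR⟩ := hSc.exists_eq_range hne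
  refine ⟨R, ?_⟩
  intro Y ν ε hε
  obtain ⟨r, hr, κ, hn⟩ := hS Y ν ε hε
  rw [hR] at hr
  obtain ⟨j, rfl⟩ := hr
  exact ⟨j, κ, hn⟩

end R658.UA
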