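import Mathlib
import Pool.Agent.R658.UA.Stmts

/-! TASK EXH: exhaustion of a locally finite group and a separable space. -/

set_option autoImplicit false

namespace R658.UA

open Topology TopologicalSpace Filter

theorem exh_vadd {Y : Type} [NormedAddCommGroup Y] [NormedSpace ℝ Y] (e : Y ≃ᵃⁱ[ℝ] Y) (y : Y) :
    e y = e.linearIsometryEquiv y + e 0 := by
  have h := e.map_vadd (0 : Y) y
  simpa using h

theorem taskEXH : TaskEXH := by
  intro H Y _ _ _ _ _ act hfin
  obtain ⟨e, he⟩ := exists_surjective_nat H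
  set Hs : ℕ → Subgroup H := fun n => Subgroup.closure (e '' {i | i < n}) with hHs
  set G : ℕ → Set Y := fun n => insert 0 (denseSeq Y '' {i | i < n}) with hG
  set Fs : ℕ → Set Y := fun n => {z | ∃ h ∈ Hs n, ∃ y ∈ G n, act h y = z} with hFs
  have hHfin : ∀ n, Finite (Hs n) := fun n => hfin _ ((Set.finite_lt_nat n).image e)
  have hHmono : ∀ n, Hs n ≤ Hs (n + 1) := by
    intro n
    apply Subgroup.closure_mono
    apply Set.image_mono
    intro i hi
    exact Nat.lt_succ_of_lt hi
  have hH0 : Hs 0 = ⊥ := by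
    have h1 : e '' {i | i < 0} = ∅ := by
      ext x; simp
    simp only [hHs]
    rw [h1, Subgroup.closure_empty]
  have hGfin : ∀ n, (G n).Finite := fun n => ((Set.finite_lt_nat n).image _).insert 0
  have hGmono : ∀ n, G n ⊆ G (n + 1) := by
    intro n
    apply Set.insert_subset_insert
    apply Set.image_mono
    intro i hi
    exact Nat.lt_succ_of_lt hi
  have h0G : ∀ n, (0 : Y) ∈ G n := fun n => Set.mem_insert _ _
  have hGF : ∀ n, G n ⊆ Fs n := by
    intro n y hy
    exact ⟨1, Subgroup.one_mem _, y, hy, by simp⟩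
  have hinv : ∀ n, ∀ h ∈ Hs n, ∀ y ∈ Fs n, act h y ∈ Fs n := by
    rintro n h hh y ⟨h', hh', y', hy', rfl⟩
    refine ⟨h * h', Subgroup.mul_mem _ hh hh', y', hy', ?_⟩
    rw [map_mul, AffineIsometryEquiv.coe_mul, Function.comp_apply]
  refine ⟨Hs, Fs, hHfin, hHmono, ?_, hH0, ?_, ?_, fun n => hGF n (h0G n), ?_, hinv, ?_, ?_⟩
  · intro h
    obtain ⟨i, rfl⟩ := he h
    exact ⟨i + 1, Subgroup.subset_closure ⟨i, Nat.lt_succ_self i, rfl⟩⟩
  · intro n
    have h1 : ((Hs n : Set H)).Finite := Set.toFinite _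
    refine (h1.image2 (fun h y => act h y) (hGfin n)).subset ?_
    rintro z ⟨h, hh, y, hy, rfl⟩
    exact ⟨h, hh, y, hy, rfl⟩
  · rintro n z ⟨h, hh, y, hy, rfl⟩
    exact ⟨h, hHmono n hh, y, hGmono n hy, rfl⟩
  · ext z
    simp only [Set.mem_singleton_iff]
    constructor
    · rintro ⟨h, hh, y, hy, rfl⟩
      rw [hH0, Subgroup.mem_bot] at hh
      have hy' : y = 0 := by
        rcases hy with rfl | ⟨i, hi, _⟩
        · rfl
        · exact absurd hi (Nat.not_lt_zero i)
      rw [hh, hy']
      simp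
    · rintro rfl
      exact hGF 0 (h0G 0)
  · intro n h hh y hy
    have hlin : ∀ y ∈ Submodule.span ℝ (Fs n),
        (act h).linearIsometryEquiv y ∈ Submodule.span ℝ (Fs n) := by
      intro y hy
      induction hy using Submodule.span_induction with
      | mem x hx =>
        have h1 := exh_vadd (act h) x
        have h2 : (act h).linearIsometryEquiv x = act h x - act h 0 := by
          rw [h1]; abel
        rw [h2]
        exact Submodule.sub_mem _ (Submodule.subset_span (hinv n h hh x hx))
          (Submodule.subset_span (hinv n h hh 0 (hGF n (h0G n))))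
      | zero => simp
      | add x y _ _ hx hy => rw [map_add]; exact Submodule.add_mem _ hx hy
      | smul a x _ hx => rw [map_smul]; exact Submodule.smul_mem _ _ hx
    rw [exh_vadd]
    exact Submodule.add_mem _ (hlin y hy)
      (Submodule.subset_span (hinv n h hh 0 (hGF n (h0G n))))
  · refine (denseRange_denseSeq Y).mono ?_
    rintro z ⟨i, rfl⟩
    refine Set.mem_iUnion.2 ⟨i + 1, hGF (i + 1) ?_⟩
    exact Set.mem_insert_of_mem _ ⟨i, Nat.lt_succ_self i, rfl⟩

end R658.UA
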