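import Mathlib
import Pool.Agent.R658.UA.Stmts

/-! # MP_a2e83c_al: TASK EXT, extension of an affine functional (helper179) -/

set_option autoImplicit false

namespace R658.UA

theorem taskEXT : TaskEXT := by
  intro B C _ _ W _ _ α β δ η θ L hδ0 hδ1 hδη hη1 hθ0 hθ1 hL hα hβ w₀ p hp
  have h1δ : 0 < 1 - δ := by linarith
  have hinj : Function.Injective β.linear := by
    rw [injective_iff_map_eq_zero]
    intro w hw
    have h := hβ w
    rw [hw, norm_zero] at h
    have h2 : ‖w‖ ≤ 0 := by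
      by_contra hc
      have : 0 < (1 - δ) * ‖w‖ := mul_pos h1δ (not_le.1 hc)
      linarith
    exact norm_le_zero_iff.1 h2
  let eqv := LinearEquiv.ofInjective β.linear hinj
  let f0 : LinearMap.range β.linear →ₗ[ℝ] ℝ :=
    (1 - η) • (p.linear ∘ₗ α.linear ∘ₗ eqv.symm.toLinearMap)
  have hf0 : ∀ w : W, f0 ⟨β.linear w, w, rfl⟩ = (1 - η) * p.linear (α.linear w) := by
    intro w
    have h1 : eqv.symm ⟨β.linear w, w, rfl⟩ = w := by
      rw [LinearEquiv.symm_apply_eq]
      apply Subtype.ext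
      rfl
    change (1 - η) • p.linear (α.linear (eqv.symm ⟨β.linear w, w, rfl⟩)) = _
    rw [h1, smul_eq_mul]
  set K : ℝ := (1 - η) / (1 - δ) * L with hK
  have hK0 : 0 ≤ K := by
    have : 0 ≤ 1 - η := by linarith
    positivity
  have hbound : ∀ v : LinearMap.range β.linear, ‖f0 v‖ ≤ K * ‖v‖ := by
    rintro ⟨v, w, rfl⟩
    rw [hf0, Real.norm_eq_abs, abs_mul, abs_of_nonneg (by linarith : 0 ≤ 1 - η)]
    have h1 := hp (α.linear w)
    have h2 := hα w
    have h3 := hβ w
    have h4 : ‖w‖ ≤ ‖β.linear w‖ / (1 - δ) := by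
      rw [le_div_iff₀ h1δ]; linarith
    have h5 : |p.linear (α.linear w)| ≤ L * (‖β.linear w‖ / (1 - δ)) :=
      h1.trans (mul_le_mul_of_nonneg_left (h2.trans h4) hL)
    calc (1 - η) * |p.linear (α.linear w)| ≤ (1 - η) * (L * (‖β.linear w‖ / (1 - δ))) :=
          mul_le_mul_of_nonneg_left h5 (by linarith)
      _ = K * ‖β.linear w‖ := by rw [hK]; ring
  let f : LinearMap.range β.linear →L[ℝ] ℝ := f0.mkContinuous K hbound
  have hfn : ‖f‖ ≤ K := LinearMap.mkContinuous_norm_le f0 hK0 hbound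
  obtain ⟨g, hg, hgn⟩ := exists_extension_norm_eq (LinearMap.range β.linear) f
  have hgw : ∀ w : W, g (β.linear w) = (1 - η) * p.linear (α.linear w) := by
    intro w
    have h1 := hg ⟨β.linear w, w, rfl⟩
    rw [← hf0 w]
    exact h1
  let q : (C → ℝ) →ᵃ[ℝ] ℝ :=
    { toFun := fun v => g (v - β w₀) + (1 - θ) * p (α w₀)
      linear := g.toLinearMap
      map_vadd' := by
        intro x v
        change g (v + x - β w₀) + (1 - θ) * p (α w₀) = g v + (g (x - β w₀) + (1 - θ) * p (α w₀))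
        rw [add_sub_assoc, map_add, add_assoc] }
  have hq : ∀ v, q v = g (v - β w₀) + (1 - θ) * p (α w₀) := fun v => rfl
  refine ⟨q, ?_, ?_, ?_⟩
  · intro v
    change |g v| ≤ K * ‖v‖
    calc |g v| = ‖g v‖ := (Real.norm_eq_abs _).symm
      _ ≤ ‖g‖ * ‖v‖ := g.le_opNorm v
      _ ≤ K * ‖v‖ := by
          apply mul_le_mul_of_nonneg_right _ (norm_nonneg v)
          rw [hgn]; exact hfn
  · rw [hq, sub_self, map_zero, zero_add]
  · intro w
    have h1 : β w - β w₀ = β.linear (w - w₀) := (AffineMap.linearMap_vsub β w w₀).symm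
    have h2 : α w - α w₀ = α.linear (w - w₀) := (AffineMap.linearMap_vsub α w w₀).symm
    have h3 : p (α w) - p (α w₀) = p.linear (α w - α w₀) :=
      (AffineMap.linearMap_vsub p (α w) (α w₀)).symm
    rw [hq, h1, hgw]
    rw [h2] at h3
    have h4 : p (α w) - ((1 - η) * p.linear (α.linear (w - w₀)) + (1 - θ) * p (α w₀)) =
        θ * p (α w₀) + η * p.linear (α.linear (w - w₀)) := by
      have : p (α w) = p (α w₀) + p.linear (α.linear (w - w₀)) := by linarith
      rw [this]; ring
    rw [h4]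
    have hη0 : 0 ≤ η := by linarith
    have h5 := (hp (α.linear (w - w₀))).trans (mul_le_mul_of_nonneg_left (hα (w - w₀)) hL)
    calc |θ * p (α w₀) + η * p.linear (α.linear (w - w₀))| ≤
        |θ * p (α w₀)| + |η * p.linear (α.linear (w - w₀))| := abs_add_le _ _
      _ = θ * |p (α w₀)| + η * |p.linear (α.linear (w - w₀))| := by
          rw [abs_mul, abs_mul, abs_of_nonneg hθ0, abs_of_nonneg hη0]
      _ ≤ θ * |p (α w₀)| + η * (L * ‖w - w₀‖) := by
          have := mul_le_mul_of_nonneg_left h5 hη0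
          linarith
      _ = _ := by ring

end R658.UA
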