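import Mathlib
import Pool.Agent.R658.UA.Stmts

/-! Task LIMG: the direct limit of the groups. -/

set_option autoImplicit false

namespace R658.UA

open Topology CategoryTheory

namespace TLIMGaux

variable {D : ℕ → FG} (s : ∀ n, D n ⟶ D (n + 1))

/-- transition maps -/
def fm (n m : ℕ) (h : n ≤ m) : (D n).T →* (D m).T := Mor.i (ch s h)

theorem fm_self (n : ℕ) (x : (D n).T) : fm s n n le_rfl x = x := by
  unfold fm
  rw [ch_self]
  rfl

theorem fm_fm (n m k : ℕ) (h : n ≤ m) (h' : m ≤ k) (x : (D n).T) :
    fm s m k h' (fm s n m h x) = fm s n k (h.trans h') x := by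
  unfold fm
  rw [ch_comp s h h']
  rfl

instance : DirectedSystem (fun n => (D n).T) (fun n m h => (fm s n m h : (D n).T → (D m).T)) where
  map_self := fun n x => fm_self s n x
  map_map := fun _ _ _ h h' x => fm_fm s _ _ _ h h' x

/-- the limit group -/
abbrev Lim : Type := DirectLimit (fun n => (D n).T) (fm s)

end TLIMGaux

open TLIMGaux in
theorem taskLIMG : TaskLIMG := by
  intro D s
  refine ⟨Lim s, inferInstance, fun n =>
    { toFun := fun x => ⟦⟨n, x⟩⟧
      map_one' := (DirectLimit.one_def (f := fm s) n).symm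
      map_mul' := fun x y => (DirectLimit.mul_def (f := fm s) n x y).symm }, ?_, ?_, ?_⟩
  · intro n
    exact DirectLimit.mk_injective (fm s) (fun i j hij => Mor.inj (ch s hij)) n
  · intro n d
    have h := DirectLimit.mk_apply (f := fm s) n (n + 1) d (Nat.le_succ n)
    have h2 : fm s n (n + 1) (Nat.le_succ n) d = Mor.i (s n) d := by
      unfold fm
      rw [ch_one]
    rw [h2] at h
    exact h
  · intro g
    obtain ⟨n, d, h⟩ := DirectLimit.exists_eq_mk (fm s) g
    exact ⟨n, d, h.symm⟩

end R658.UA
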