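import Mathlib
import Pool.Agent.R658.UA.Stmts

/-! # MP_a2e83c_al, task LIMIT: the limit of the sequence of embeddings (helper159) -/

set_option autoImplicit false

namespace R658.UA

open Topology Filter

namespace Lim

section grp

variable {H G : Type} [Group H] [Group G] {Hs : ℕ → Subgroup H} (hmono : ∀ n, Hs n ≤ Hs (n + 1))
  (hcov : ∀ h, ∃ n, h ∈ Hs n) (ι : ∀ k, Hs k →* G)
  (hι : ∀ (k : ℕ) (x : Hs k), ι (k + 1) ⟨x, hmono k x.2⟩ = ι k x)

include hmono hι in
theorem step {n m : ℕ} (hnm : n ≤ m) (h : H) (hn : h ∈ Hs n) :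
    ∃ hm : h ∈ Hs m, ι m ⟨h, hm⟩ = ι n ⟨h, hn⟩ := by
  induction m, hnm using Nat.le_induction with
  | base => exact ⟨hn, rfl⟩
  | succ m hm ih =>
    obtain ⟨h1, h2⟩ := ih
    exact ⟨hmono m h1, (hι m ⟨h, h1⟩).trans h2⟩

include hmono hι in
theorem indep {n m : ℕ} (h : H) (hn : h ∈ Hs n) (hm : h ∈ Hs m) :
    ι m ⟨h, hm⟩ = ι n ⟨h, hn⟩ := by
  rcases le_total n m with hle | hle
  · obtain ⟨_, h2⟩ := step hmono ι hι hle h hn
    exact h2
  · obtain ⟨_, h2⟩ := step hmono ι hι hle h hm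
    exact h2.symm

include hmono hcov hι in
theorem exists_hom : ∃ ι' : H →* G, ∀ (k : ℕ) (h : H) (hk : h ∈ Hs k), ι' h = ι k ⟨h, hk⟩ := by
  choose n hn using hcov
  have key : ∀ (k : ℕ) (h : H) (hk : h ∈ Hs k), ι (n h) ⟨h, hn h⟩ = ι k ⟨h, hk⟩ :=
    fun k h hk => indep hmono ι hι h hk (hn h)
  have mono : Monotone Hs := monotone_nat_of_le_succ hmono
  refine ⟨MonoidHom.mk' (fun h => ι (n h) ⟨h, hn h⟩) fun a b => ?_, fun k h hk => key k h hk⟩
  have ha : a ∈ Hs (max (n a) (n b)) := mono (le_max_left _ _) (hn a)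
  have hb : b ∈ Hs (max (n a) (n b)) := mono (le_max_right _ _) (hn b)
  have hab : a * b ∈ Hs (max (n a) (n b)) := mul_mem ha hb
  change ι (n (a * b)) ⟨a * b, hn (a * b)⟩ = ι (n a) ⟨a, hn a⟩ * ι (n b) ⟨b, hn b⟩
  rw [key _ _ hab, key _ _ ha, key _ _ hb, ← map_mul]
  rfl

end grp

section lim

variable {Y X : Type} [NormedAddCommGroup Y] [NormedSpace ℝ Y]
    [NormedAddCommGroup X] [NormedSpace ℝ X] {Fs : ℕ → Set Y}
    (hF : ∀ n, Fs n ⊆ Fs (n + 1)) (hd : Dense (⋃ n, Fs n))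
    {φ : ℕ → (Y →ᵃ[ℝ] X)} (hlip : ∀ k y, ‖(φ k).linear y‖ ≤ ‖y‖)
    (hnear : ∀ k, ∀ y ∈ Fs k, ‖φ (k + 1) y - φ k y‖ ≤ 2 * (1 / 2) ^ k)

include hlip in
theorem lip (k : ℕ) (y z : Y) : dist (φ k y) (φ k z) ≤ dist y z := by
  rw [dist_eq_norm, dist_eq_norm]
  have := hlip k (y - z)
  rwa [show (φ k).linear (y - z) = φ k y - φ k z from AffineMap.linearMap_vsub (φ k) y z] at this

include hF hnear in
theorem cauchy_mem {k₀ : ℕ} {y : Y} (hy : y ∈ Fs k₀) : CauchySeq fun k => φ k y := by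
  have mono : Monotone Fs := monotone_nat_of_le_succ hF
  rw [← cauchySeq_shift k₀]
  refine cauchySeq_of_le_geometric (1 / 2) (2 * (1 / 2) ^ k₀) (by norm_num) fun n => ?_
  have h1 := hnear (n + k₀) y (mono (Nat.le_add_left _ _) hy)
  rw [dist_comm, dist_eq_norm, show n + 1 + k₀ = n + k₀ + 1 by ring]
  refine h1.trans (le_of_eq ?_)
  rw [pow_add]
  ring

include hF hd hlip hnear in
theorem cauchy (y : Y) : CauchySeq fun k => φ k y := by
  rw [Metric.cauchySeq_iff]
  intro ε hε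
  obtain ⟨z, hz, hyz⟩ := Metric.dense_iff.1 hd y (ε / 3) (by positivity)
  obtain ⟨k₀, hk₀⟩ := Set.mem_iUnion.1 hyz
  obtain ⟨N, hN⟩ := Metric.cauchySeq_iff.1 (cauchy_mem hF hnear hk₀) (ε / 3) (by positivity)
  refine ⟨N, fun m hm n hn => ?_⟩
  have h1 := hN m hm n hn
  have h2 : dist z y < ε / 3 := Metric.mem_ball.1 hz
  calc dist (φ m y) (φ n y) ≤ dist (φ m y) (φ m z) + dist (φ m z) (φ n z) +
        dist (φ n z) (φ n y) := dist_triangle4 _ _ _ _
    _ ≤ dist y z + dist (φ m z) (φ n z) + dist z y :=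
        add_le_add (add_le_add (lip hlip m y z) le_rfl) (lip hlip n z y)
    _ < ε := by rw [dist_comm y z]; linarith

end lim

end Lim

open Lim in
theorem taskLIMIT : TaskLIMIT := by
  intro H Y G X _ _ _ _ _ _ _ act actX Hs Fs hmono hcov hF hd ι φ δ hδ hinj hlip heq hlow hι hnear
  obtain ⟨ι', hι'⟩ := exists_hom hmono hcov ι hι
  have monoH : Monotone Hs := monotone_nat_of_le_succ hmono
  have monoF : Monotone Fs := monotone_nat_of_le_succ hF
  have hex : ∀ y, ∃ x, Tendsto (fun k => φ k y) atTop (𝓝 x) := fun y =>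
    cauchySeq_tendsto_of_complete (cauchy hF hd hlip hnear y)
  choose L hL using hex
  -- the linear part
  have hT : ∀ y, Tendsto (fun k => (φ k).linear y) atTop (𝓝 (L y - L 0)) := by
    intro y
    refine ((hL y).sub (hL 0)).congr fun k => ?_
    have := AffineMap.linearMap_vsub (φ k) y 0
    rw [vsub_eq_sub, sub_zero, vsub_eq_sub] at this
    exact this.symm
  let T : Y →ₗ[ℝ] X :=
    { toFun := fun y => L y - L 0
      map_add' := fun a b => by
        refine tendsto_nhds_unique (hT (a + b)) (((hT a).add (hT b)).congr fun k => ?_)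
        rw [map_add]
      map_smul' := fun c a => by
        refine tendsto_nhds_unique (hT (c • a)) (((hT a).const_smul c).congr fun k => ?_)
        rw [map_smul] }
  have hTle : ∀ y, ‖T y‖ ≤ ‖y‖ := fun y =>
    le_of_tendsto (hT y).norm (Eventually.of_forall fun k => hlip k y)
  have hTc : Continuous T := (T.mkContinuous 1 fun y => by rw [one_mul]; exact hTle y).continuous
  have hTge : ∀ y, ‖y‖ ≤ ‖T y‖ := by
    have hcl : IsClosed {y : Y | ‖y‖ ≤ ‖T y‖} := isClosed_le continuous_norm hTc.norm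
    have hsub : (⋃ n, Fs n) ⊆ {y : Y | ‖y‖ ≤ ‖T y‖} := by
      intro y hy
      obtain ⟨k₀, hk₀⟩ := Set.mem_iUnion.1 hy
      have h1 : Tendsto (fun k => (1 - δ k) * ‖y‖) atTop (𝓝 ((1 - 0) * ‖y‖)) :=
        (tendsto_const_nhds.sub hδ).mul tendsto_const_nhds
      rw [sub_zero, one_mul] at h1
      refine le_of_tendsto_of_tendsto h1 (hT y).norm ?_
      filter_upwards [eventually_ge_atTop k₀] with k hk
      exact hlow k y (Submodule.subset_span (monoF hk hk₀))
    intro y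
    have h2 : closure (⋃ n, Fs n) ⊆ {y : Y | ‖y‖ ≤ ‖T y‖} := closure_minimal hsub hcl
    exact h2 (hd y)
  let φ' : Y →ᵃⁱ[ℝ] X :=
    { toFun := L
      linear := T
      map_vadd' := fun p v => by
        refine tendsto_nhds_unique (hL (v +ᵥ p)) (((hT v).add (hL p)).congr fun k => ?_)
        rw [AffineMap.map_vadd, vadd_eq_add]
      norm_map := fun y => le_antisymm (hTle y) (hTge y) }
  refine ⟨ι', φ', fun a b hab => ?_, fun h y => ?_⟩
  · obtain ⟨n, hn⟩ := hcov a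
    obtain ⟨m, hm⟩ := hcov b
    have ha : a ∈ Hs (max n m) := monoH (le_max_left _ _) hn
    have hb : b ∈ Hs (max n m) := monoH (le_max_right _ _) hm
    rw [hι' _ a ha, hι' _ b hb] at hab
    exact congrArg Subtype.val (hinj _ hab)
  · obtain ⟨k₀, hk₀⟩ := hcov h
    change L (act h y) = actX (ι' h) (L y)
    have h1 : Tendsto (fun k => actX (ι' h) (φ k y)) atTop (𝓝 (actX (ι' h) (L y))) :=
      ((actX (ι' h)).continuous.tendsto _).comp (hL y)
    refine tendsto_nhds_unique (hL (act h y)) (h1.congr' ?_)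
    filter_upwards [eventually_ge_atTop k₀] with k hk
    have h2 := heq k ⟨h, monoH hk hk₀⟩ y
    rw [← hι' k h (monoH hk hk₀)] at h2
    exact h2.symm

end R658.UA
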