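import Mathlib
import Pool.Agent.R658.UA.Stmts

/-! # MP_a2e83c_al: TaskLIMX -/

set_option autoImplicit false

namespace R658.UA

open Topology CategoryTheory TopologicalSpace Filter

/-- linear version of `res` -/
theorem lin_res {X Y : FG} (f : X ⟶ Y) (v : X.T → ℝ) (d : X.T) :
    (Mor.e f).linear v (Mor.i f d) = v d := by
  have h : (Mor.e f).linear v = Mor.e f v - Mor.e f 0 := by
    have := AffineMap.linearMap_vsub (Mor.e f) v 0
    simpa using this
  rw [h, Pi.sub_apply, Mor.res, Mor.res]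
  simp

theorem lin_sub_eq {X Y : FG} (f : X ⟶ Y) (v w : X.T → ℝ) :
    (Mor.e f).linear (v - w) = Mor.e f v - Mor.e f w :=
  AffineMap.linearMap_vsub (Mor.e f) v w

theorem lin_equi {X Y : FG} (f : X ⟶ Y) (d : X.T) (v : X.T → ℝ) :
    (Mor.e f).linear (tr d v) = tr (Mor.i f d) ((Mor.e f).linear v) := by
  have h : ∀ v, (Mor.e f).linear v = Mor.e f v - Mor.e f 0 := by
    intro v
    have := lin_sub_eq f v 0
    simpa using this
  have h0 : Mor.e f 0 = tr (Mor.i f d) (Mor.e f 0) := by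
    have := Mor.equi f d 0
    have h1 : tr d (0 : X.T → ℝ) = 0 := rfl
    rwa [h1] at this
  rw [h, h, Mor.equi, tr_sub]
  rw [← h0]

/-- data -/
structure LD where
  D : ℕ → FG
  s : ∀ n, D n ⟶ D (n + 1)
  G : Type
  [grp : Group G]
  j : ∀ n, (D n).T →* G
  inj : ∀ n, Function.Injective (j n)
  comp : ∀ n d, j (n + 1) (Mor.i (s n) d) = j n d
  surj : ∀ g, ∃ n d, j n d = g

namespace LD

variable (S : LD)

instance : Group S.G := S.grp

instance : TopologicalSpace S.G := ⊥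

instance : DiscreteTopology S.G := ⟨rfl⟩

/-- composites -/
def c {n m : ℕ} (h : n ≤ m) : S.D n ⟶ S.D m := ch S.s h

theorem c_comp {n m k : ℕ} (h : n ≤ m) (h' : m ≤ k) : S.c (h.trans h') = S.c h ≫ S.c h' :=
  ch_comp S.s h h'

theorem c_self (n : ℕ) : S.c (le_refl n) = 𝟙 (S.D n) := ch_self S.s n

theorem j_c {n m : ℕ} (h : n ≤ m) (d : (S.D n).T) : S.j m (Mor.i (S.c h) d) = S.j n d := by
  induction m, h using Nat.le_induction with
  | base => rw [c_self]; rfl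
  | succ m hm ih =>
    have : S.c (hm.trans (Nat.le_succ m)) = S.c hm ≫ S.s m := ch_succ S.s hm
    rw [this, comp_i, S.comp, ih]

theorem ex_rep (n : ℕ) (g : S.G) : ∃ m, n ≤ m ∧ ∃ d, S.j m d = g := by
  obtain ⟨k, d, hd⟩ := S.surj g
  exact ⟨max n k, le_max_left _ _, Mor.i (S.c (le_max_right n k)) d, by rw [j_c, hd]⟩

theorem lin_comp {n m k : ℕ} (h : n ≤ m) (h' : m ≤ k) (v : (S.D n).T → ℝ) :
    (Mor.e (S.c h')).linear ((Mor.e (S.c h)).linear v) = (Mor.e (S.c (h.trans h'))).linear v := by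
  rw [S.c_comp h h']; rfl

/-- evaluation -/
noncomputable def ev (n : ℕ) (v : (S.D n).T → ℝ) (g : S.G) : ℝ :=
  (Mor.e (S.c (S.ex_rep n g).choose_spec.1)).linear v (S.ex_rep n g).choose_spec.2.choose

theorem ev_aux {n m k : ℕ} (h : n ≤ m) (h' : n ≤ k) (v : (S.D n).T → ℝ) (d : (S.D m).T)
    (d' : (S.D k).T) (hd : S.j m d = S.j k d') (hmk : m ≤ k) :
    (Mor.e (S.c h)).linear v d = (Mor.e (S.c h')).linear v d' := by
  have e1 : Mor.i (S.c hmk) d = d' := by
    apply S.inj k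
    rw [j_c, hd]
  rw [← e1, ← S.lin_comp h hmk, lin_res]

theorem ev_eq {n m : ℕ} (h : n ≤ m) (v : (S.D n).T → ℝ) (d : (S.D m).T) (g : S.G)
    (hd : S.j m d = g) : S.ev n v g = (Mor.e (S.c h)).linear v d := by
  have h1 : S.j _ (S.ex_rep n g).choose_spec.2.choose = g :=
    (S.ex_rep n g).choose_spec.2.choose_spec
  unfold ev
  rcases le_total (S.ex_rep n g).choose m with hk | hk
  · exact S.ev_aux _ _ _ _ _ (h1.trans hd.symm) hk
  · exact (S.ev_aux _ _ _ _ _ (hd.trans h1.symm) hk).symm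

theorem ev_add (n : ℕ) (v w : (S.D n).T → ℝ) (g : S.G) :
    S.ev n (v + w) g = S.ev n v g + S.ev n w g := by
  simp [ev]

theorem ev_smul (n : ℕ) (r : ℝ) (v : (S.D n).T → ℝ) (g : S.G) :
    S.ev n (r • v) g = r * S.ev n v g := by
  simp [ev]

theorem ev_le (n : ℕ) (v : (S.D n).T → ℝ) (g : S.G) : ‖S.ev n v g‖ ≤ ‖v‖ := by
  unfold ev
  exact (norm_le_pi_norm _ _).trans (Mor.lip _ _)

open BoundedContinuousFunction

/-- the linear map into bounded functions -/
noncomputable def lin (n : ℕ) : ((S.D n).T → ℝ) →ₗ[ℝ] (S.G →ᵇ ℝ) where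
  toFun v := BoundedContinuousFunction.ofNormedAddCommGroupDiscrete (S.ev n v) ‖v‖ (S.ev_le n v)
  map_add' v w := by ext g; simp [ev_add]
  map_smul' r v := by ext g; simp [ev_smul]

theorem lin_apply (n : ℕ) (v : (S.D n).T → ℝ) (g : S.G) : S.lin n v g = S.ev n v g := rfl

theorem norm_lin (n : ℕ) (v : (S.D n).T → ℝ) : ‖S.lin n v‖ = ‖v‖ := by
  apply le_antisymm
  · exact (BoundedContinuousFunction.norm_le (norm_nonneg v)).2 (S.ev_le n v)
  · refine (pi_norm_le_iff_of_nonneg (norm_nonneg _)).2 fun d => ?_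
    have h1 : S.lin n v (S.j n d) = v d := by
      rw [lin_apply, S.ev_eq (le_refl n) v d _ rfl, c_self]
      rfl
    rw [← h1]
    exact BoundedContinuousFunction.norm_coe_le_norm _ _

theorem lin_c {n m : ℕ} (h : n ≤ m) (v : (S.D n).T → ℝ) :
    S.lin m ((Mor.e (S.c h)).linear v) = S.lin n v := by
  ext g
  obtain ⟨k, hk, d, hd⟩ := S.ex_rep m g
  rw [lin_apply, lin_apply, S.ev_eq hk _ d g hd, S.ev_eq (h.trans hk) _ d g hd, lin_comp]

/-- translation -/
noncomputable def L (g : S.G) : (S.G →ᵇ ℝ) →ₗ[ℝ] (S.G →ᵇ ℝ) where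
  toFun f := BoundedContinuousFunction.ofNormedAddCommGroupDiscrete (fun x => f (g⁻¹ * x)) ‖f‖
    (fun _ => BoundedContinuousFunction.norm_coe_le_norm f _)
  map_add' v w := by ext x; simp
  map_smul' r v := by ext x; simp

theorem L_apply (g : S.G) (f : S.G →ᵇ ℝ) (x : S.G) : S.L g f x = f (g⁻¹ * x) := rfl

theorem L_mul (g h : S.G) (f : S.G →ᵇ ℝ) : S.L (g * h) f = S.L g (S.L h f) := by
  ext x; simp [L_apply, mul_assoc]

theorem L_one (f : S.G →ᵇ ℝ) : S.L 1 f = f := by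
  ext x; simp [L_apply]

theorem norm_L_le (g : S.G) (f : S.G →ᵇ ℝ) : ‖S.L g f‖ ≤ ‖f‖ :=
  (BoundedContinuousFunction.norm_le (norm_nonneg f)).2
    fun _ => BoundedContinuousFunction.norm_coe_le_norm f _

theorem norm_L (g : S.G) (f : S.G →ᵇ ℝ) : ‖S.L g f‖ = ‖f‖ := by
  apply le_antisymm (S.norm_L_le g f)
  have := S.norm_L_le g⁻¹ (S.L g f)
  rwa [← L_mul, inv_mul_cancel, L_one] at this

theorem L_lin (n : ℕ) (d : (S.D n).T) (v : (S.D n).T → ℝ) :
    S.L (S.j n d) (S.lin n v) = S.lin n (tr d v) := by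
  ext x
  obtain ⟨k, hk, y, hy⟩ := S.ex_rep n x
  rw [L_apply, lin_apply, lin_apply, S.ev_eq hk _ y x hy, lin_equi, tr_apply]
  apply S.ev_eq hk
  rw [map_mul, map_inv, j_c, hy]

/-- base points -/
noncomputable def p (n : ℕ) : (S.D n).T → ℝ := Mor.e (S.c (Nat.zero_le n)) 0

theorem p_c {n m : ℕ} (h : n ≤ m) : Mor.e (S.c h) (S.p n) = S.p m := by
  unfold p
  rw [← comp_e, ← c_comp]

theorem cob_c {n m : ℕ} (h : n ≤ m) (d : (S.D n).T) :
    S.lin m (tr (Mor.i (S.c h) d) (S.p m) - S.p m) = S.lin n (tr d (S.p n) - S.p n) := by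
  rw [← S.lin_c h, lin_sub_eq, Mor.equi, p_c]

theorem ex_cob (g : S.G) : ∃ f : S.G →ᵇ ℝ, ∀ n d, S.j n d = g →
    f = S.lin n (tr d (S.p n) - S.p n) := by
  obtain ⟨k, d, hd⟩ := S.surj g
  refine ⟨S.lin k (tr d (S.p k) - S.p k), fun n d' hd' => ?_⟩
  rw [← S.cob_c (le_max_left k n), ← S.cob_c (le_max_right k n)]
  have : Mor.i (S.c (le_max_left k n)) d = Mor.i (S.c (le_max_right k n)) d' := by
    apply S.inj
    rw [j_c, j_c, hd, hd']
  rw [this]

/-- the cocycle -/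
noncomputable def b (g : S.G) : S.G →ᵇ ℝ := (S.ex_cob g).choose

theorem b_eq (n : ℕ) (d : (S.D n).T) : S.b (S.j n d) = S.lin n (tr d (S.p n) - S.p n) :=
  (S.ex_cob (S.j n d)).choose_spec n d rfl

theorem b_mul (g h : S.G) : S.b (g * h) = S.L g (S.b h) + S.b g := by
  obtain ⟨k, d, hd⟩ := S.surj g
  obtain ⟨n, hn, d', hd'⟩ := S.ex_rep k h
  have hg : S.j n (Mor.i (S.c hn) d) = g := by rw [j_c, hd]
  rw [← hg, ← hd', ← map_mul, b_eq, b_eq, b_eq, L_lin, ← map_add, tr_mul, tr_sub]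
  congr 1
  abel

/-- the dense subspace -/
noncomputable def X₀ : Submodule ℝ (S.G →ᵇ ℝ) where
  carrier := {x | ∃ n v, S.lin n v = x}
  zero_mem' := ⟨0, 0, map_zero _⟩
  add_mem' := by
    rintro _ _ ⟨n, v, rfl⟩ ⟨m, w, rfl⟩
    refine ⟨max n m, (Mor.e (S.c (le_max_left n m))).linear v +
      (Mor.e (S.c (le_max_right n m))).linear w, ?_⟩
    rw [map_add, lin_c, lin_c]
  smul_mem' := by
    rintro r _ ⟨n, v, rfl⟩
    exact ⟨n, r • v, map_smul _ _ _⟩

theorem lin_mem (n : ℕ) (v : (S.D n).T → ℝ) : S.lin n v ∈ S.X₀ := ⟨n, v, rfl⟩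

theorem L_mem (g : S.G) (f : S.G →ᵇ ℝ) (hf : f ∈ S.X₀) : S.L g f ∈ S.X₀ := by
  obtain ⟨n, v, rfl⟩ := hf
  obtain ⟨k, hk, d, hd⟩ := S.ex_rep n g
  rw [← S.lin_c hk, ← hd, L_lin]
  exact S.lin_mem _ _

theorem b_mem (g : S.G) : S.b g ∈ S.X₀ := by
  obtain ⟨k, d, hd⟩ := S.surj g
  rw [← hd, b_eq]
  exact S.lin_mem _ _

/-- the space -/
abbrev X : Type := S.X₀.topologicalClosure

theorem L_isom (g : S.G) : Isometry (S.L g) :=
  AddMonoidHomClass.isometry_of_norm (S.L g) (S.norm_L g)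

theorem L_mem' (g : S.G) (f : S.G →ᵇ ℝ) (hf : f ∈ S.X₀.topologicalClosure) :
    S.L g f ∈ S.X₀.topologicalClosure := by
  have h1 : f ∈ closure (S.X₀ : Set (S.G →ᵇ ℝ)) := hf
  have h2 : Set.MapsTo (S.L g) (S.X₀ : Set (S.G →ᵇ ℝ)) (S.X₀ : Set (S.G →ᵇ ℝ)) :=
    fun x hx => S.L_mem g x hx
  exact h2.closure (S.L_isom g).continuous h1

/-- the action as a map -/
noncomputable def actf (g : S.G) (x : S.X) : S.X :=
  ⟨S.L g x + S.b g, S.X₀.topologicalClosure.add_mem (S.L_mem' g x x.2)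
    (S.X₀.le_topologicalClosure (S.b_mem g))⟩

theorem actf_coe (g : S.G) (x : S.X) : (S.actf g x : S.G →ᵇ ℝ) = S.L g x + S.b g := rfl

theorem actf_mul (g h : S.G) (x : S.X) : S.actf (g * h) x = S.actf g (S.actf h x) := by
  apply Subtype.ext
  rw [actf_coe, actf_coe, actf_coe, L_mul, b_mul, map_add, add_assoc]

theorem b_one : S.b 1 = 0 := by
  have := S.b_mul 1 1
  rw [mul_one, L_one] at this
  simpa using this

theorem actf_one (x : S.X) : S.actf 1 x = x := by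
  apply Subtype.ext
  rw [actf_coe, L_one, b_one, add_zero]

/-- the action -/
noncomputable def act : S.G →* (S.X ≃ᵢ S.X) where
  toFun g :=
    { toFun := S.actf g
      invFun := S.actf g⁻¹
      left_inv := fun x => by rw [← actf_mul, inv_mul_cancel, actf_one]
      right_inv := fun x => by rw [← actf_mul, mul_inv_cancel, actf_one]
      isometry_toFun := by
        refine Isometry.of_dist_eq fun x y => ?_
        rw [Subtype.dist_eq, actf_coe, actf_coe, dist_add_right, (S.L_isom g).dist_eq]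
        rfl }
  map_one' := by
    ext x : 1
    exact S.actf_one x
  map_mul' g h := by
    ext x : 1
    exact S.actf_mul g h x

theorem act_apply (g : S.G) (x : S.X) : S.act g x = S.actf g x := rfl

/-- the linear map with values in `X` -/
noncomputable def linX (n : ℕ) : ((S.D n).T → ℝ) →ₗ[ℝ] S.X :=
  (S.lin n).codRestrict _ fun v => S.X₀.le_topologicalClosure (S.lin_mem n v)

theorem linX_coe (n : ℕ) (v : (S.D n).T → ℝ) : (S.linX n v : S.G →ᵇ ℝ) = S.lin n v := rfl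

/-- the affine maps -/
noncomputable def Φ (n : ℕ) : ((S.D n).T → ℝ) →ᵃ[ℝ] S.X where
  toFun v := S.linX n (v - S.p n)
  linear := S.linX n
  map_vadd' v w := by
    simp only [vadd_eq_add]
    rw [← map_add]
    congr 1
    abel

theorem Φ_apply (n : ℕ) (v : (S.D n).T → ℝ) : S.Φ n v = S.linX n (v - S.p n) := rfl

theorem Φ_dist (n : ℕ) (v w : (S.D n).T → ℝ) : ‖S.Φ n v - S.Φ n w‖ = ‖v - w‖ := by
  have h : S.linX n (v - S.p n) - S.linX n (w - S.p n) = S.linX n (v - w) := by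
    apply Subtype.ext
    show S.lin n (v - S.p n) - S.lin n (w - S.p n) = S.lin n (v - w)
    rw [← map_sub]
    congr 1
    abel
  rw [Φ_apply, Φ_apply, h, ← S.norm_lin n, ← linX_coe]
  rfl

theorem Φ_comp (n : ℕ) (v : (S.D n).T → ℝ) : S.Φ (n + 1) (Mor.e (S.s n) v) = S.Φ n v := by
  have hs : S.c (Nat.le_succ n) = S.s n := ch_one S.s n
  apply Subtype.ext
  rw [Φ_apply, Φ_apply, linX_coe, linX_coe, ← S.lin_c (Nat.le_succ n), lin_sub_eq, p_c, hs]

theorem Φ_act (n : ℕ) (d : (S.D n).T) (v : (S.D n).T → ℝ) :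
    S.Φ n (tr d v) = S.act (S.j n d) (S.Φ n v) := by
  apply Subtype.ext
  rw [act_apply, actf_coe, Φ_apply, Φ_apply, linX_coe, linX_coe, L_lin, b_eq, ← map_add, tr_sub]
  congr 1
  abel

theorem sepX : @SeparableSpace S.X _ := by
  have h1 : IsSeparable (S.X₀ : Set (S.G →ᵇ ℝ)) := by
    have : (S.X₀ : Set (S.G →ᵇ ℝ)) = ⋃ n, Set.range (S.lin n) := by
      ext x
      simp only [Set.mem_iUnion, Set.mem_range]
      rfl
    rw [this]
    refine IsSeparable.iUnion fun n => ?_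
    exact isSeparable_range (AddMonoidHomClass.isometry_of_norm (S.lin n) (S.norm_lin n)).continuous
  have h2 : IsSeparable (S.X₀.topologicalClosure : Set (S.G →ᵇ ℝ)) := h1.closure
  exact h2.separableSpace

theorem main : ∃ (X : Type) (_ : NormedAddCommGroup X) (_ : NormedSpace ℝ X)
      (_ : CompleteSpace X) (_ : SeparableSpace X) (act : S.G →* (X ≃ᵢ X))
      (Φ : ∀ n, ((S.D n).T → ℝ) →ᵃ[ℝ] X),
      (∀ n v w, ‖Φ n v - Φ n w‖ = ‖v - w‖) ∧
      (∀ n v, Φ (n + 1) (Mor.e (S.s n) v) = Φ n v) ∧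
      ∀ n d v, Φ n (tr d v) = act (S.j n d) (Φ n v) :=
  ⟨S.X, inferInstance, inferInstance, inferInstance, S.sepX, S.act, S.Φ,
    S.Φ_dist, S.Φ_comp, S.Φ_act⟩

end LD

theorem taskLIMX : TaskLIMX := by
  intro D s G _ j hinj hcomp hsurj
  exact LD.main { D := D, s := s, G := G, j := j, inj := hinj, comp := hcomp, surj := hsurj }

end R658.UA
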