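import Mathlib
import Pool.Agent.R658.UA.Stmts

/-! # MP_a2e83c_al: near amalgamation for objects -/

set_option autoImplicit false

namespace R658.UA

open Topology CategoryTheory TopologicalSpace Filter

namespace NAOBJ

/-- two affine maps on `ℝ^D` which are close at `0` and at the basis vectors are close -/
theorem close_of_basis {D : Type} [Fintype D] [DecidableEq D] {V : Type} [NormedAddCommGroup V]
    [NormedSpace ℝ V] (a b : (D → ℝ) →ᵃ[ℝ] V) (ε : ℝ) (hε : 0 < ε)
    (h0 : ‖a 0 - b 0‖ ≤ ε / (2 * Fintype.card D + 1))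
    (h1 : ∀ x : D, ‖a (Pi.single x 1) - b (Pi.single x 1)‖ ≤ ε / (2 * Fintype.card D + 1))
    (v : D → ℝ) : ‖a v - b v‖ ≤ ε * (1 + ‖v‖) := by
  have hlin : ∀ (c : (D → ℝ) →ᵃ[ℝ] V) (w : D → ℝ), c w = c.linear w + c 0 := by
    intro c w
    have := c.map_vadd 0 w
    simpa using this
  have hsum : ∀ (l : (D → ℝ) →ₗ[ℝ] V), l v = ∑ x, v x • l (Pi.single x 1) := by
    intro l
    conv_lhs => rw [← Finset.univ_sum_single v, map_sum]
    refine Finset.sum_congr rfl fun x _ => ?_
    rw [← map_smul]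
    congr 1
    rw [← Pi.single_smul]
    simp
  have key : a v - b v = ∑ x, v x • ((a (Pi.single x 1) - b (Pi.single x 1)) - (a 0 - b 0))
      + (a 0 - b 0) := by
    have e1 : ∀ (c : (D → ℝ) →ᵃ[ℝ] V) (x : D), c.linear (Pi.single x 1) = c (Pi.single x 1) - c 0 := by
      intro c x
      rw [hlin c (Pi.single x 1)]; simp
    rw [hlin a v, hlin b v, hsum a.linear, hsum b.linear]
    simp only [e1]
    rw [add_sub_add_comm, ← Finset.sum_sub_distrib]
    congr 1
    refine Finset.sum_congr rfl fun x _ => ?_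
    rw [← smul_sub]
    congr 1
    abel
  set ε' := ε / (2 * Fintype.card D + 1) with hε'
  have hN : (0 : ℝ) < 2 * Fintype.card D + 1 := by positivity
  have hε'0 : 0 < ε' := by positivity
  have hsumle : ‖∑ x, v x • ((a (Pi.single x 1) - b (Pi.single x 1)) - (a 0 - b 0))‖
      ≤ Fintype.card D * (‖v‖ * (2 * ε')) := by
    refine (norm_sum_le _ _).trans ?_
    have : ∀ x ∈ (Finset.univ : Finset D),
        ‖v x • ((a (Pi.single x 1) - b (Pi.single x 1)) - (a 0 - b 0))‖ ≤ ‖v‖ * (2 * ε') := by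
      intro x _
      rw [norm_smul]
      refine mul_le_mul (norm_le_pi_norm v x) ?_ (norm_nonneg _) (norm_nonneg _)
      refine (norm_sub_le _ _).trans ?_
      have := h1 x
      linarith
    refine (Finset.sum_le_sum this).trans ?_
    simp
  rw [key]
  refine (norm_add_le _ _).trans ?_
  have hεε : ε = ε' * (2 * Fintype.card D + 1) := by
    rw [hε']; field_simp
  rw [hεε]
  have hv := norm_nonneg v
  have hc : (0 : ℝ) ≤ Fintype.card D := by positivity
  nlinarith [mul_nonneg hε'0.le hv, mul_nonneg hε'0.le hc]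

end NAOBJ

open NAOBJ in
theorem taskNAOBJ : TaskNAOBJ := by
  classical
  intro hNA X Y Z f g ε hε
  have hN : (0 : ℝ) < 2 * Fintype.card X.T + 1 := by positivity
  have trsingle : ∀ (a x : X.T), tr a (Pi.single x (1 : ℝ)) = Pi.single (a * x) 1 := by
    intro a x
    ext y
    simp only [tr, Pi.single_apply]
    congr 1
    exact propext ⟨fun h => by rw [← h]; group, fun h => by rw [h]; group⟩
  have tr0 : ∀ a : X.T, tr a (0 : X.T → ℝ) = 0 := by
    intro a; ext y; simp [tr]
  have hlow : ∀ {Y' : FG} (k : X ⟶ Y') (w : X.T → ℝ), ‖w‖ ≤ ‖(Mor.e k).linear w‖ := by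
    intro Y' k w
    have h1 := Mor.dist_eq k w 0
    have h2 : (Mor.e k).linear (w - 0) = Mor.e k w - Mor.e k 0 :=
      AffineMap.linearMap_vsub (Mor.e k) w 0
    rw [sub_zero] at h1 h2
    rw [h2, h1]
  obtain ⟨D, μ, ν, hμν, hF⟩ := hNA X.T Y Z (Mor.i f) (Mor.i g) (Mor.inj f) (Mor.inj g)
    (X.T → ℝ) tr (Mor.e f) (Mor.e g) 0 le_rfl one_pos (Mor.lip f) (Mor.lip g)
    (fun w => by simpa using hlow f w) (fun w => by simpa using hlow g w)
    (fun a w => Mor.equi f a w) (fun a w => Mor.equi g a w)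
    (fun w => by
      have h1 := Mor.res f w 1
      have h2 := Mor.res g w 1
      rw [map_one] at h1 h2
      rw [h1, h2])
    ({0} ∪ Set.range (fun x : X.T => (Pi.single x (1 : ℝ) : X.T → ℝ)))
    ((Set.finite_singleton _).union (Set.finite_range _))
    (by
      rintro a w (hw | ⟨x, rfl⟩)
      · rw [Set.mem_singleton_iff] at hw
        subst hw
        left; exact tr0 a
      · right; exact ⟨a * x, (trsingle a x).symm⟩)
    0 (Or.inl rfl) (ε / (2 * Fintype.card X.T + 1)) (by positivity)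
    (by intro w _; rw [zero_mul]; positivity)
  refine ⟨D, μ, ν, ?_, ?_⟩
  · apply MonoidHom.ext
    intro a
    exact hμν a
  · intro v
    exact close_of_basis (Mor.e (f ≫ μ)) (Mor.e (g ≫ ν)) ε hε (hF 0 (Or.inl rfl))
      (fun x => hF _ (Or.inr ⟨x, rfl⟩)) v

end R658.UA
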