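import Mathlib
import Pool.Agent.R658.UA.Stmts

/-! MP_a2e83c_al, TASK REC (helper92). -/

set_option autoImplicit false

namespace R658.UA

open Topology Filter CategoryTheory

theorem rec_delta {Y : Type} [NormedAddCommGroup Y] (F : Set Y) (hF : F.Finite) (k : ℕ) :
    ∃ d : ℝ, 0 < d ∧ d ≤ (1 / 2) ^ (k + 1) ∧ ∀ y ∈ F, d * ‖y‖ < (1 / 2) ^ k := by
  obtain ⟨M, hM⟩ := hF.isBounded.exists_norm_le
  have hp : (0 : ℝ) < (1 / 2) ^ (k + 1) := by positivity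
  have hM1 : 1 ≤ |M| + 1 := by linarith [abs_nonneg M]
  have hM0 : 0 < |M| + 1 := by linarith
  refine ⟨(1 / 2) ^ (k + 1) / (|M| + 1), by positivity, div_le_self hp.le hM1, ?_⟩
  intro y hy
  have h1 : ‖y‖ ≤ |M| := (hM y hy).trans (le_abs_self M)
  calc (1 / 2) ^ (k + 1) / (|M| + 1) * ‖y‖ ≤ (1 / 2) ^ (k + 1) / (|M| + 1) * (|M| + 1) := by
        apply mul_le_mul_of_nonneg_left _ (by positivity)
        linarith
    _ = (1 / 2) ^ (k + 1) := by field_simp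
    _ < (1 / 2) ^ k := by
        rw [pow_succ]
        have : (0 : ℝ) < (1 / 2) ^ k := by positivity
        linarith

theorem taskREC : TaskREC := by
  intro D s hstep H Y _ _ _ act Hs Fs hmono hfin h0 hFfin hFmono hF0 hF00 hFinv hSinv
  choose δ hδ0 hδ1 hδ2 using fun k => rec_delta (Fs k) (hFfin k) k
  have hδlt : ∀ k, δ k < 1 := by
    intro k
    refine lt_of_le_of_lt (hδ1 k) ?_
    exact pow_lt_one₀ (by norm_num) (by norm_num) (by omega)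
  let St : ℕ → Type := fun k =>
    {p : Σ N : ℕ, (Hs k →* (D N).T) × (Y →ᵃ[ℝ] ((D N).T → ℝ)) //
      Emb act (Hs k) (Submodule.span ℝ (Fs k)) (δ k) (D p.1) p.2.1 p.2.2}
  have hnext : ∀ k (S : St k), ∃ S' : St (k + 1), ∃ h : S.1.1 ≤ S'.1.1,
      (∀ x : Hs k, S'.1.2.1 ⟨x, hmono k x.2⟩ = Mor.i (ch s h) (S.1.2.1 x)) ∧
      ∀ y ∈ Fs k, ‖S'.1.2.2 y - Mor.e (ch s h) (S.1.2.2 y)‖ ≤ 2 * (1 / 2) ^ k := by
    rintro k ⟨⟨n, ι, φ⟩, hE⟩
    have hfd : ∀ k, FiniteDimensional ℝ (Submodule.span ℝ (Fs k)) := fun k =>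
      FiniteDimensional.span_of_finite ℝ (hFfin k)
    obtain ⟨m, h, ι', φ', hE', h1, h2⟩ := hstep H Y act (Hs k) (Hs (k + 1)) (hmono k) (hfin _)
      (Submodule.span ℝ (Fs k)) (Submodule.span ℝ (Fs (k + 1))) (hfd k) (hfd (k + 1))
      (Submodule.span_mono (hFmono k)) (hSinv k) n (δ k) (hδ0 k).le (hδlt k) ι φ hE (Fs k)
      (hFfin k) Submodule.subset_span (hFinv k) (hF0 k) ((1 / 2) ^ k) (by positivity) (hδ2 k)
      (δ (k + 1)) (hδ0 _) (hδlt _)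
    exact ⟨⟨⟨m, ι', φ'⟩, hE'⟩, h, h1, h2⟩
  choose next hn using hnext
  have hS0 : Emb act (Hs 0) (Submodule.span ℝ (Fs 0)) (δ 0) (D 0) (1 : Hs 0 →* (D 0).T)
      (0 : Y →ᵃ[ℝ] ((D 0).T → ℝ)) := by
    refine ⟨?_, ?_, ?_, ?_⟩
    · intro a b _
      have ha := h0.le a.2
      have hb := h0.le b.2
      rw [Subgroup.mem_bot] at ha hb
      exact Subtype.ext (ha.trans hb.symm)
    · intro y; simp
    · intro h y; rfl
    · intro y hy
      rw [hF00, Submodule.span_singleton_eq_bot.mpr rfl, Submodule.mem_bot] at hy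
      rw [hy]; simp
  let S0 : St 0 := ⟨⟨0, 1, 0⟩, hS0⟩
  let seq : ∀ k, St k := fun k => Nat.rec S0 next k
  refine ⟨fun k => (seq k).1.1, fun k => (seq k).1.2.1, fun k => (seq k).1.2.2, δ, ?_,
    fun k => (seq k).2, fun k => hn k (seq k)⟩
  have h1 : Tendsto (fun k : ℕ => ((1 : ℝ) / 2) ^ (k + 1)) atTop (𝓝 0) :=
    (tendsto_add_atTop_iff_nat 1).mpr
      (tendsto_pow_atTop_nhds_zero_of_lt_one (by norm_num) (by norm_num))
  exact squeeze_zero (fun k => (hδ0 k).le) hδ1 h1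

end R658.UA
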