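import Mathlib
import Pool.Agent.R658.UA.Stmts

/-! # MP_a2e83c_al: the extension step (TaskSTEPU) -/

set_option autoImplicit false

namespace R658.UA

open Topology CategoryTheory TopologicalSpace Filter

namespace STEPU

lemma linear_eq {V W : Type} [AddCommGroup V] [Module ℝ V] [AddCommGroup W] [Module ℝ W]
    (f : V →ᵃ[ℝ] W) (y : V) : f.linear y = f y - f 0 := by
  have := AffineMap.linearMap_vsub f y 0
  simpa using this

/-- finitely many norming functionals -/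
lemma exists_norming {Y : Type} [NormedAddCommGroup Y] [NormedSpace ℝ Y] (Y₂ : Submodule ℝ Y)
    [FiniteDimensional ℝ Y₂] {δ : ℝ} (hδ : 0 < δ) :
    ∃ (N : ℕ) (f : ℕ → (Y →L[ℝ] ℝ)), (∀ i y, |f i y| ≤ ‖y‖) ∧
      ∀ y ∈ Y₂, ∃ i, 1 ≤ i ∧ i ≤ N ∧ (1 - δ) * ‖y‖ ≤ |f i y| := by
  classical
  have : ProperSpace Y₂ := FiniteDimensional.proper_real Y₂
  obtain ⟨t, hts, htf, hcov⟩ := (isCompact_sphere (0 : Y₂) 1).finite_cover_balls hδ
  have hdual : ∀ x : Y₂, ∃ g : Y →L[ℝ] ℝ, ‖g‖ ≤ 1 ∧ g (x:Y) = ‖(x:Y)‖ := fun x => by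
    obtain ⟨g, h1, h2⟩ := exists_dual_vector'' ℝ (x:Y)
    exact ⟨g, h1, by simpa using h2⟩
  choose g hg1 hg2 using hdual
  have hg3 : ∀ x y, |g x y| ≤ ‖y‖ := by
    intro x y
    have h1 := (g x).le_opNorm y
    rw [Real.norm_eq_abs] at h1
    calc |g x y| ≤ ‖g x‖ * ‖y‖ := h1
      _ ≤ 1 * ‖y‖ := by gcongr; exact hg1 x
      _ = ‖y‖ := one_mul _
  have : Finite t := htf
  obtain ⟨N, ⟨e⟩⟩ := Finite.exists_equiv_fin t
  refine ⟨N + 1, fun i => if h : i - 1 < N then g (e.symm ⟨i - 1, h⟩ : t) else 0, ?_, ?_⟩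
  · intro i y
    by_cases h : i - 1 < N
    · simp only [h, dif_pos]
      exact hg3 _ y
    · simp only [h, dif_neg, not_false_iff]
      simp
  · intro y hy
    by_cases hy0 : y = 0
    · subst hy0
      exact ⟨1, le_rfl, by omega, by simp⟩
    have hyn : 0 < ‖y‖ := norm_pos_iff.2 hy0
    set z : Y₂ := ‖y‖⁻¹ • ⟨y, hy⟩ with hz
    have hz1 : z ∈ Metric.sphere (0 : Y₂) 1 := by
      rw [mem_sphere_zero_iff_norm, hz, norm_smul, norm_inv, norm_norm, Submodule.coe_norm]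
      exact inv_mul_cancel₀ hyn.ne'
    obtain ⟨x, hxt, hxz⟩ := Set.mem_iUnion₂.1 (hcov hz1)
    have hx1 : ‖(x:Y)‖ = 1 := by
      have := hts hxt
      rw [mem_sphere_zero_iff_norm] at this
      exact this
    have hxz' : ‖(z:Y) - x‖ < δ := by
      rw [Metric.mem_ball, dist_eq_norm] at hxz
      exact hxz
    have h1 : g x z = 1 + g x ((z:Y) - x) := by
      rw [map_sub, hg2 x, hx1]; ring
    have h2 := hg3 x ((z:Y) - x)
    rw [abs_le] at h2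
    have h3 : 1 - δ ≤ g x z := by linarith [h2.1]
    have h4 : g x y = ‖y‖ * g x z := by
      rw [hz]
      simp only [Submodule.coe_smul, map_smul, smul_eq_mul]
      rw [← mul_assoc, mul_inv_cancel₀ hyn.ne', one_mul]
    refine ⟨(e ⟨x, hxt⟩ : ℕ) + 1, by omega, by have := (e ⟨x, hxt⟩).2; omega, ?_⟩
    have h5 : (e ⟨x, hxt⟩ : ℕ) + 1 - 1 < N := by
      have := (e ⟨x, hxt⟩).2; omega
    simp only [h5, dif_pos]
    have h6 : (⟨(e ⟨x, hxt⟩ : ℕ) + 1 - 1, h5⟩ : Fin N) = e ⟨x, hxt⟩ := by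
      apply Fin.ext; simp
    rw [h6, Equiv.symm_apply_apply]
    simp only
    rw [h4]
    calc (1 - δ) * ‖y‖ = ‖y‖ * (1 - δ) := mul_comm _ _
      _ ≤ ‖y‖ * g x z := by gcongr
      _ ≤ |‖y‖ * g x z| := le_abs_self _

/-- the group `H₂ × K` -/
lemma psi_aux {H Y K : Type} [Group H] [NormedAddCommGroup Y] [NormedSpace ℝ Y] [Group K]
    [Finite K] (act : H →* (Y ≃ᵃⁱ[ℝ] Y)) (H₂ : Subgroup H) [Finite H₂] (Y₂ : Submodule ℝ Y)
    {δ : ℝ} (P : K → (Y →ᵃ[ℝ] ℝ)) (hP : ∀ k y, |(P k).linear y| ≤ ‖y‖)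
    (hn : ∀ y ∈ Y₂, ∃ k, (1 - δ) * ‖y‖ ≤ |(P k).linear y|) :
    ∃ (B : FG) (iB : H₂ →* B.T) (ψ : Y →ᵃ[ℝ] (B.T → ℝ)), Emb act H₂ Y₂ δ B iB ψ ∧
      ∀ y, ψ y 1 = P 1 y := by
  classical
  let hF : Fintype (H₂ × K) := Fintype.ofFinite _
  let ψ : Y →ᵃ[ℝ] ((H₂ × K) → ℝ) := AffineMap.pi (fun b : H₂ × K =>
    (P b.2).comp ((act ((b.1⁻¹ : H₂) : H)).toAffineEquiv : Y →ᵃ[ℝ] Y))
  have hψ : ∀ y b, ψ y b = P b.2 (act ((b.1⁻¹ : H₂) : H) y) := fun y b => rfl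
  have hψl : ∀ y b, ψ.linear y b =
      (P b.2).linear (act ((b.1⁻¹ : H₂) : H) y - act ((b.1⁻¹ : H₂) : H) 0) := by
    intro y b
    rw [linear_eq ψ]
    have h1 := AffineMap.linearMap_vsub (P b.2) (act ((b.1⁻¹ : H₂) : H) y)
      (act ((b.1⁻¹ : H₂) : H) 0)
    simp only [vsub_eq_sub] at h1
    rw [Pi.sub_apply, hψ, hψ, h1]
  have hactn : ∀ (h : H) y, ‖act h y - act h 0‖ = ‖y‖ := by
    intro h y
    rw [← dist_eq_norm, AffineIsometryEquiv.dist_map, dist_zero_right]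
  have g1 : Function.Injective (MonoidHom.inl H₂ K) := by
    intro a b hab
    exact congrArg Prod.fst (show (a, (1 : K)) = (b, 1) from hab)
  have g2 : ∀ y, ‖ψ.linear y‖ ≤ ‖y‖ := by
    intro y
    refine (pi_norm_le_iff_of_nonneg (norm_nonneg y)).2 fun b => ?_
    rw [hψl, Real.norm_eq_abs]
    exact (hP _ _).trans (hactn _ y).le
  have g3 : ∀ (h : H₂) (y : Y), ψ (act h y) = tr (MonoidHom.inl H₂ K h) (ψ y) := by
    intro h y
    funext b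
    have e0 : tr (MonoidHom.inl H₂ K h) (ψ y) b = ψ y ((h, (1 : K))⁻¹ * b) := rfl
    rw [e0, hψ, hψ]
    have e1 : ((h, (1 : K))⁻¹ * b) = (h⁻¹ * b.1, b.2) := by
      rcases b with ⟨b1, b2⟩
      simp
    rw [e1]
    simp only
    congr 1
    have e2 : (((h⁻¹ * b.1)⁻¹ : H₂) : H) = ((b.1⁻¹ : H₂) : H) * (h : H) := by
      push_cast
      group
    rw [e2, map_mul]
    rfl
  have g4 : ∀ y ∈ Y₂, (1 - δ) * ‖y‖ ≤ ‖ψ.linear y‖ := by
    intro y hy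
    obtain ⟨k, hk⟩ := hn y hy
    have h2 : ψ.linear y ((1 : H₂), k) = (P k).linear y := by
      rw [hψl]
      simp
    have h3 := norm_le_pi_norm (ψ.linear y) ((1 : H₂), k)
    rw [h2, Real.norm_eq_abs] at h3
    exact hk.trans h3
  have g5 : ∀ y, ψ y 1 = P 1 y := by
    intro y
    rw [hψ]
    simp
  exact ⟨@FG.mk (H₂ × K) inferInstance hF, MonoidHom.inl H₂ K, ψ, ⟨g1, g2, g3, g4⟩, g5⟩

/-- a finite group `B` and an embedding of `(H₂, Y₂)` up to `δ` with a prescribed value at `1` -/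
lemma exists_psi {H Y : Type} [Group H] [NormedAddCommGroup Y] [NormedSpace ℝ Y]
    (act : H →* (Y ≃ᵃⁱ[ℝ] Y)) (H₂ : Subgroup H) [Finite H₂] (Y₂ : Submodule ℝ Y)
    [FiniteDimensional ℝ Y₂] {δ : ℝ} (hδ : 0 < δ) (p : Y →ᵃ[ℝ] ℝ)
    (hp : ∀ y, |p.linear y| ≤ ‖y‖) :
    ∃ (B : FG) (iB : H₂ →* B.T) (ψ : Y →ᵃ[ℝ] (B.T → ℝ)), Emb act H₂ Y₂ δ B iB ψ ∧
      ∀ y, ψ y 1 = p y := by
  classical
  obtain ⟨N, f, hf, hN⟩ := exists_norming Y₂ hδ
  have hfin : Finite (Multiplicative (ZMod (N + 1))) := inferInstance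
  obtain ⟨B, iB, ψ, h1, h2⟩ := psi_aux (K := Multiplicative (ZMod (N + 1))) act H₂ Y₂ (δ := δ)
    (fun k => if k = 1 then p else
      ((f (Multiplicative.toAdd k).val : Y →L[ℝ] ℝ) : Y →ₗ[ℝ] ℝ).toAffineMap)
    (fun k y => by
      by_cases hk : k = 1
      · simp only [hk, if_true]
        exact hp y
      · simp only [hk, if_false]
        exact hf _ y)
    (fun y hy => by
      obtain ⟨i, hi1, hi2, hi3⟩ := hN y hy
      have hk : (Multiplicative.toAdd (Multiplicative.ofAdd ((i : ℕ) : ZMod (N + 1)))).val = i :=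
        ZMod.val_natCast_of_lt (by omega)
      have hk1 : Multiplicative.ofAdd ((i : ℕ) : ZMod (N + 1)) ≠ 1 := by
        intro h
        rw [h] at hk
        simp at hk
        omega
      refine ⟨Multiplicative.ofAdd ((i : ℕ) : ZMod (N + 1)), ?_⟩
      simp only [hk1, if_false]
      rw [hk]
      exact hi3)
  refine ⟨B, iB, ψ, h1, fun y => ?_⟩
  rw [h2 y]
  simp

end STEPU

open STEPU

theorem taskSTEPU : TaskSTEPU := by
  classical
  intro hNA D s hFr H Y _ _ _ act H₁ H₂ hH hfin Y₁ Y₂ hf1 hf2 hY12 hinv n δ hδ0 hδ1 ι φ hE F hFf hFY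
    hFinv h0F ε hε hFδ δ' hδ'0 hδ'1
  obtain ⟨hιinj, hφl, hφe, hφn⟩ := hE
  -- choice of δ₁
  obtain ⟨M, hM0, hM⟩ : ∃ M : ℝ, 0 < M ∧ ∀ y ∈ F, ‖y‖ ≤ M ∧ ‖φ y‖ ≤ M := by
    obtain ⟨M1, hM1⟩ := (hFf.image (fun y => ‖y‖)).bddAbove
    obtain ⟨M2, hM2⟩ := (hFf.image (fun y => ‖φ y‖)).bddAbove
    refine ⟨max 1 (max M1 M2), lt_of_lt_of_le one_pos (le_max_left _ _), fun y hy => ⟨?_, ?_⟩⟩
    · exact (hM1 ⟨y, hy, rfl⟩).trans ((le_max_left _ _).trans (le_max_right _ _))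
    · exact (hM2 ⟨y, hy, rfl⟩).trans ((le_max_right _ _).trans (le_max_right _ _))
  set δ₁ : ℝ := min δ' (ε / (2 * M)) with hδ₁
  have hδ₁0 : 0 < δ₁ := lt_min hδ'0 (by positivity)
  have hδ₁1 : δ₁ ≤ δ' := min_le_left _ _
  have hδ₁2 : ∀ y ∈ F, δ₁ * ‖y‖ < ε := by
    intro y hy
    have h1 : δ₁ ≤ ε / (2 * M) := min_le_right _ _
    have h2 := (hM y hy).1
    calc δ₁ * ‖y‖ ≤ ε / (2 * M) * M := by gcongr
      _ = ε / 2 := by field_simp
      _ < ε := by linarith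
  have hp : ∀ y, |(((AffineMap.proj (k := ℝ) (1 : (D n).T)) : ((D n).T → ℝ) →ᵃ[ℝ] ℝ).comp φ).linear y| ≤ ‖y‖ := by
    intro y
    have h1 := norm_le_pi_norm (φ.linear y) (1 : (D n).T)
    rw [Real.norm_eq_abs] at h1
    exact h1.trans (hφl y)
  obtain ⟨B, iB, ψ, ⟨hBinj, hψl, hψe, hψn⟩, hψ1⟩ := exists_psi act H₂ Y₂ hδ₁0 _ hp
  have hfin1 : Finite H₁ := Finite.of_injective (Subgroup.inclusion hH) (Subgroup.inclusion_injective hH)
  -- near amalgamation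
  have hmax0 : 0 ≤ max δ δ₁ := le_max_of_le_left hδ0
  have hmax1 : max δ δ₁ < 1 := max_lt hδ1 (by linarith)
  let act' : H₁ → Y₁ → Y₁ := fun h y => ⟨act h y, hinv h h.2 y y.2⟩
  obtain ⟨E, μ, ν, hμν, hclose⟩ := hNA H₁ B (D n) (iB.comp (Subgroup.inclusion hH)) ι
    (hBinj.comp (Subgroup.inclusion_injective hH)) hιinj Y₁ act'
    (ψ.comp Y₁.subtype.toAffineMap) (φ.comp Y₁.subtype.toAffineMap) (max δ δ₁) hmax0 hmax1
    (fun w => hψl w) (fun w => hφl w)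
    (fun w => by
      have h1 := hψn w (hY12 w.2)
      have h2 : (1 - max δ δ₁) * ‖w‖ ≤ (1 - δ₁) * ‖(w:Y)‖ := by
        rw [Submodule.coe_norm]
        gcongr
        exact le_max_right _ _
      exact h2.trans h1)
    (fun w => by
      have h1 := hφn w w.2
      have h2 : (1 - max δ δ₁) * ‖w‖ ≤ (1 - δ) * ‖(w:Y)‖ := by
        rw [Submodule.coe_norm]
        gcongr
        exact le_max_left _ _
      exact h2.trans h1)
    (fun a w => hψe (Subgroup.inclusion hH a) w) (fun a w => hφe a w)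
    (fun w => hψ1 w)
    {w : Y₁ | (w : Y) ∈ F} (hFf.preimage (Subtype.val_injective.injOn))
    (fun a w hw => hFinv a a.2 w hw) 0 (by simpa using h0F) ε hε
    (fun w hw => by
      rw [sub_zero, Submodule.coe_norm]
      rcases max_cases δ δ₁ with ⟨h1, _⟩ | ⟨h1, _⟩
      · rw [h1]; exact hFδ w hw
      · rw [h1]; exact hδ₁2 w hw)
  obtain ⟨m, hm, κ, hκi, hκe⟩ := hFr n E ν (ε / (1 + M)) (by positivity)
  refine ⟨m, hm, (Mor.i κ).comp ((Mor.i μ).comp iB), (Mor.e κ).comp ((Mor.e μ).comp ψ),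
    ⟨?_, ?_, ?_, ?_⟩, ?_, ?_⟩
  · exact (Mor.inj κ).comp ((Mor.inj μ).comp hBinj)
  · intro y
    exact (Mor.lip κ _).trans ((Mor.lip μ _).trans (hψl y))
  · intro h y
    change Mor.e κ (Mor.e μ (ψ (act h y))) = tr (Mor.i κ (Mor.i μ (iB h))) (Mor.e κ (Mor.e μ (ψ y)))
    rw [hψe, Mor.equi, Mor.equi]
  · intro y hy
    have h1 : ‖((Mor.e κ).comp ((Mor.e μ).comp ψ)).linear y‖ = ‖ψ.linear y‖ := by
      rw [linear_eq, linear_eq ψ]
      change ‖Mor.e κ (Mor.e μ (ψ y)) - Mor.e κ (Mor.e μ (ψ 0))‖ = _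
      rw [Mor.dist_eq, Mor.dist_eq]
    rw [h1]
    refine le_trans ?_ (hψn y hy)
    gcongr
  · intro x
    have h1 := hμν x
    change Mor.i κ (Mor.i μ (iB (Subgroup.inclusion hH x))) = Mor.i (ch s hm) (ι x)
    rw [hκi, comp_i, ← h1]
    rfl
  · intro y hy
    have h1 := hclose ⟨y, hFY hy⟩ hy
    have h2 := hκe (φ y)
    have h3 : ‖Mor.e κ (Mor.e μ (ψ y)) - Mor.e κ (Mor.e ν (φ y))‖ ≤ ε := by
      rw [Mor.dist_eq]
      exact h1
    have h4 : ε / (1 + M) * (1 + ‖φ y‖) ≤ ε := by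
      have := (hM y hy).2
      calc ε / (1 + M) * (1 + ‖φ y‖) ≤ ε / (1 + M) * (1 + M) := by gcongr
        _ = ε := by field_simp
    rw [comp_e, norm_sub_rev] at h2
    change ‖Mor.e κ (Mor.e μ (ψ y)) - Mor.e (ch s hm) (φ y)‖ ≤ 2 * ε
    have h5 : Mor.e κ (Mor.e μ (ψ y)) - Mor.e (ch s hm) (φ y) =
        (Mor.e κ (Mor.e μ (ψ y)) - Mor.e κ (Mor.e ν (φ y))) +
        (Mor.e κ (Mor.e ν (φ y)) - Mor.e (ch s hm) (φ y)) := by abel
    rw [h5]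
    refine (norm_add_le _ _).trans ?_
    linarith

end R658.UA
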